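import Pool.Agent.H667.FL.Free

set_option autoImplicit false

/-!
Classification of the models when amalgams are unique, and the dichotomy.
-/

namespace Pool.Agent.H667.FL

open FirstOrder Set MeasureTheory
open Pool.Agent.H565R2.FO2 (Interp Code toI ofI toI_ofI Iso meas_toI)
open Pool.Agent.H565R2.LO2 (PerfK perfK_of_inv)

variable {L : FirstOrder.Language.{0, 0}}

/-- The type of an element over the named elements. -/
def TT (I : Interp L ℕ) (b : ℕ) : Set (List (Fl L) × Fl L) :=
  {p | ∃ u : List ℕ, List.Forall₂ (Nm I) p.1 u ∧ Sat I p.2 (b :: u)}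

theorem nm_unique {I : Interp L ℕ} {χ : Fl L} {x y : ℕ} (hx : Nm I χ x) (hy : Nm I χ y) :
    x = y := (hy x).1 ((hx x).2 rfl)

theorem forall_unique {I : Interp L ℕ} {χs : List (Fl L)} : ∀ {u u' : List ℕ},
    List.Forall₂ (Nm I) χs u → List.Forall₂ (Nm I) χs u' → u = u' := by
  induction χs with
  | nil =>
    intro u u' h h'
    rw [List.forall₂_nil_left_iff] at h h'
    rw [h, h']
  | cons χ χs ih =>
    intro u u' h h'
    rw [List.forall₂_cons_left_iff] at h h'
    obtain ⟨x, v, h1, h2, rfl⟩ := h
    obtain ⟨x', v', h1', h2', rfl⟩ := h'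
    rw [nm_unique h1 h1', ih h2 h2']

theorem iso_of_TT {I I' : Interp L ℕ} (h0 : ty I [] = ty I' []) (hNF : NF I I') (g : ℕ ≃ ℕ)
    (hT : ∀ x, TT I x = TT I' (g x)) : ∀ n, ∀ w : List ℕ, w.length ≤ n →
    ty I w = ty I' (w.map g) := by
  have h1 : ∀ ψ x, Sat I ψ [x] ↔ Sat I' ψ [g x] := by
    intro ψ x
    have : (([], ψ) : List (Fl L) × Fl L) ∈ TT I x ↔ ([], ψ) ∈ TT I' (g x) := by rw [hT]
    simpa [TT] using this
  have hNm : ∀ χ x, Nm I χ x ↔ Nm I' χ (g x) := by
    intro χ x
    constructor
    · intro h y
      have := h (g.symm y)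
      rw [h1, Equiv.apply_symm_apply] at this
      rw [this]
      exact g.symm_apply_eq
    · intro h y
      rw [h1, h]
      exact g.injective.eq_iff
  have hF : ∀ (χs : List (Fl L)) (u : List ℕ), List.Forall₂ (Nm I) χs u →
      List.Forall₂ (Nm I') χs (u.map g) := by
    intro χs u h
    rw [List.forall₂_map_right_iff]
    exact h.imp fun χ x hx => (hNm χ x).1 hx
  intro n
  induction n with
  | zero =>
    intro w hw
    have : w = [] := List.length_eq_zero_iff.1 (by omega)
    subst this
    exact h0
  | succ n ih =>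
    intro w hw
    match w, hw with
    | [], _ => exact h0
    | b :: w, hw =>
      have hw1 := ih w (by simpa using hw)
      by_cases hw0 : w = []
      · subst hw0
        rw [List.map_cons, ty_cons]
        refine ⟨?_, h0⟩
        ext φ
        exact h1 φ b
      · by_cases hh : w.head? = some b
        · match w, hh with
          | a :: w, hh =>
            have ha : a = b := by simpa using hh
            subst ha
            exact ty_rep hw1
        · have hh' : (w.map g).head? ≠ some (g b) := by
            intro h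
            match w, h with
            | a :: w, h =>
              have : g a = g b := by simpa using h
              rw [g.injective this] at hh
              exact hh rfl
          by_cases hb : Nmd I b
          · obtain ⟨χ, hχ⟩ := hb
            rw [List.map_cons, ty_cons]
            refine ⟨?_, hw1⟩
            have key : ∀ φ, Sat I φ (b :: w) → Sat I' φ (g b :: w.map g) := by
              intro φ hφ
              have h2 : Sat I (.ex (Fl.and (up w.length χ) φ)) w :=
                ⟨b, (sat_and _ _ _ _).2 ⟨(sat_up I χ _ w b rfl).2 ((hχ b).2 rfl), hφ⟩⟩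
              rw [sat_of_ty hw1] at h2
              obtain ⟨y, hy⟩ := h2
              rw [sat_and] at hy
              have h3 := (sat_up I' χ _ (w.map g) y (by simp)).1 hy.1
              have h4 := ((hNm χ b).1 hχ y).1 h3
              rw [← h4]; exact hy.2
            ext φ
            refine ⟨key φ, fun h => ?_⟩
            by_contra hn
            exact key φ.neg hn h
          · by_cases hall : ∀ x ∈ w, Nmd I x
            · obtain ⟨χs, hχs⟩ : ∃ χs, List.Forall₂ (Nm I) χs w := by
                clear hw hw1 hw0 hh hh'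
                induction w with
                | nil => exact ⟨[], List.Forall₂.nil⟩
                | cons a w ihw =>
                  obtain ⟨χs, h⟩ := ihw fun x hx => hall x (List.mem_cons_of_mem _ hx)
                  obtain ⟨χ, hχ⟩ := hall a List.mem_cons_self
                  exact ⟨χ :: χs, List.Forall₂.cons hχ h⟩
              rw [List.map_cons, ty_cons]
              refine ⟨?_, hw1⟩
              ext φ
              have h2 : (χs, φ) ∈ TT I b ↔ (χs, φ) ∈ TT I' (g b) := by rw [hT]
              have h3 : (χs, φ) ∈ TT I b ↔ Sat I φ (b :: w) := by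
                constructor
                · rintro ⟨u, hu, hs⟩
                  rw [forall_unique hu hχs] at hs
                  exact hs
                · intro hs; exact ⟨w, hχs, hs⟩
              have h4 : (χs, φ) ∈ TT I' (g b) ↔ Sat I' φ (g b :: w.map g) := by
                constructor
                · rintro ⟨u, hu, hs⟩
                  rw [forall_unique hu (hF _ _ hχs)] at hs
                  exact hs
                · intro hs; exact ⟨w.map g, hF _ _ hχs, hs⟩
              exact h3.symm.trans (h2.trans h4)
            · push Not at hall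
              have h2 := ih (b :: w).dropLast (by
                rw [List.length_dropLast]; simp at hw ⊢; omega)
              rw [List.map_dropLast, List.map_cons] at h2
              exact hNF w (w.map g) b (g b) hw0 hh hh' hw1 h2 hb hall

theorem iso_of_ty {I I' : Interp L ℕ} (g : ℕ ≃ ℕ) (h : ∀ w : List ℕ, ty I w = ty I' (w.map g))
    (n : ℕ) (R : L.Relations n) (v : Fin n → ℕ) : I n R v ↔ I' n R fun k => g (v k) := by
  have h1 := sat_of_ty (h (List.ofFn v).reverse) (.rel R)
  have e : (List.ofFn v).reverse.map g = (List.ofFn fun k => g (v k)).reverse := by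
    rw [List.map_reverse, List.map_ofFn]; rfl
  rw [e] at h1
  have h2 := sat_rel_iff I R v []
  have h3 := sat_rel_iff I' R (fun k => g (v k)) []
  rw [List.append_nil] at h2 h3
  exact h2.symm.trans (h1.trans h3)

theorem TT_map {I I' : Interp L ℕ} (g : ℕ ≃ ℕ)
    (hg : ∀ n (R : L.Relations n) (v : Fin n → ℕ), I n R v ↔ I' n R (fun k => g (v k))) (b : ℕ) :
    TT I b = TT I' (g b) := by
  have hs := fun φ w => sat_map g hg φ w
  have hNm : ∀ χ x, Nm I χ x ↔ Nm I' χ (g x) := by
    intro χ x
    unfold Nm
    constructor
    · intro h y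
      have := h (g.symm y)
      rw [hs] at this
      simp only [List.map_cons, List.map_nil, Equiv.apply_symm_apply] at this
      rw [this]
      exact g.symm_apply_eq
    · intro h y
      rw [hs]
      simp only [List.map_cons, List.map_nil]
      rw [h]
      exact g.injective.eq_iff
  ext ⟨χs, φ⟩
  constructor
  · rintro ⟨u, hu, h⟩
    refine ⟨u.map g, ?_, ?_⟩
    · rw [List.forall₂_map_right_iff]
      exact hu.imp fun χ x hx => (hNm χ x).1 hx
    · have := (hs φ (b :: u)).1 h
      simpa using this
  · rintro ⟨u, hu, h⟩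
    refine ⟨u.map g.symm, ?_, ?_⟩
    · rw [List.forall₂_map_right_iff]
      refine hu.imp fun χ x hx => (hNm χ _).2 ?_
      rw [Equiv.apply_symm_apply]; exact hx
    · have := (hs φ (b :: u.map g.symm)).2
      simp only [List.map_cons, List.map_map] at this
      apply this
      have e : (g ∘ g.symm) = id := by funext x; simp
      rw [e, List.map_id]
      exact h

section Meas

variable [∀ n, Countable (L.Relations n)]

omit [∀ n, Countable (L.Relations n)] in
theorem meas_sat (φ : Fl L) : ∀ w : List ℕ, Measurable fun c : Code L => Sat (toI c) φ w := by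
  induction φ with
  | bot => intro w; exact measurable_const
  | eq => intro w; exact measurable_const
  | rel R =>
    intro w
    exact Measurable.exists fun v => Measurable.exists fun u =>
      measurable_const.and (meas_toI R v)
  | imp φ ψ h1 h2 => intro w; exact (h1 w).imp (h2 w)
  | ex φ h1 => intro w; exact Measurable.exists fun b => h1 (b :: w)
  | prev φ h1 => intro w; exact h1 w.tail

omit [∀ n, Countable (L.Relations n)] in
theorem meas_nm (χ : Fl L) (x : ℕ) : Measurable fun c : Code L => Nm (toI c) χ x :=
  Measurable.forall fun y => (meas_sat χ [y]).iff measurable_const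

omit [∀ n, Countable (L.Relations n)] in
theorem meas_forall (χs : List (Fl L)) : ∀ u : List ℕ,
    Measurable fun c : Code L => List.Forall₂ (Nm (toI c)) χs u := by
  induction χs with
  | nil =>
    intro u
    simp only [List.forall₂_nil_left_iff]
    exact measurable_const
  | cons χ χs ih =>
    intro u
    match u with
    | [] =>
      simp only [List.forall₂_nil_right_iff, reduceCtorEq]
      exact measurable_const
    | x :: u =>
      simp only [List.forall₂_cons]
      exact (meas_nm χ x).and (ih u)

omit [∀ n, Countable (L.Relations n)] in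
theorem meas_TT (p : List (Fl L) × Fl L) (b : ℕ) :
    Measurable fun c : Code L => p ∈ TT (toI c) b :=
  Measurable.exists fun u => (meas_forall p.1 u).and (meas_sat p.2 (b :: u))

end Meas

/-- Functions with equally large fibres. -/
theorem exists_perm {Z : Type} (f f' : ℕ → Z)
    (h : ∀ z n, (∃ s : Finset ℕ, s.card = n ∧ ∀ x ∈ s, f x = z) ↔
      (∃ s : Finset ℕ, s.card = n ∧ ∀ x ∈ s, f' x = z)) : ∃ g : ℕ ≃ ℕ, ∀ x, f x = f' (g x) := by
  classical
  have key : ∀ (A B : Set ℕ), (∀ n, (∃ s : Finset ℕ, s.card = n ∧ ∀ x ∈ s, x ∈ A) ↔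
      (∃ s : Finset ℕ, s.card = n ∧ ∀ x ∈ s, x ∈ B)) → A.Finite → B.Finite ∧
        A.ncard = B.ncard := by
    intro A B hAB hA
    have hB : B.Finite := by
      by_contra hB
      have hB' : B.Infinite := hB
      obtain ⟨s, hs1, hs2⟩ := hB'.exists_subset_card_eq (A.ncard + 1)
      obtain ⟨t, ht1, ht2⟩ := (hAB (A.ncard + 1)).2 ⟨s, hs2, fun x hx => hs1 hx⟩
      have : (t : Set ℕ) ⊆ A := fun x hx => ht2 x hx
      have := Set.ncard_le_ncard this hA
      rw [Set.ncard_coe_finset, ht1] at this
      omega
    refine ⟨hB, le_antisymm ?_ ?_⟩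
    · obtain ⟨t, ht1, ht2⟩ := (hAB A.ncard).1 ⟨hA.toFinset, by
        rw [Set.ncard_eq_toFinset_card A hA], fun x hx => by simpa using hx⟩
      have : (t : Set ℕ) ⊆ B := fun x hx => ht2 x hx
      have := Set.ncard_le_ncard this hB
      rwa [Set.ncard_coe_finset, ht1] at this
    · obtain ⟨t, ht1, ht2⟩ := (hAB B.ncard).2 ⟨hB.toFinset, by
        rw [Set.ncard_eq_toFinset_card B hB], fun x hx => by simpa using hx⟩
      have : (t : Set ℕ) ⊆ A := fun x hx => ht2 x hx
      have := Set.ncard_le_ncard this hA
      rwa [Set.ncard_coe_finset, ht1] at this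
  have hfib : ∀ z, Nonempty ({x // f x = z} ≃ {x // f' x = z}) := by
    intro z
    by_cases hA : {x | f x = z}.Finite
    · obtain ⟨hB, hc⟩ := key {x | f x = z} {x | f' x = z} (fun n => h z n) hA
      have : Finite {x // f x = z} := hA
      have : Finite {x // f' x = z} := hB
      have := Fintype.ofFinite {x // f x = z}
      have := Fintype.ofFinite {x // f' x = z}
      refine ⟨Fintype.equivOfCardEq ?_⟩
      rw [← Nat.card_eq_fintype_card, ← Nat.card_eq_fintype_card]
      exact hc
    · have hB : ¬ {x | f' x = z}.Finite := fun hB =>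
        hA (key {x | f' x = z} {x | f x = z} (fun n => (h z n).symm) hB).1
      have : Infinite {x // f x = z} := Set.infinite_coe_iff.2 hA
      have : Infinite {x // f' x = z} := Set.infinite_coe_iff.2 hB
      exact nonempty_equiv_of_countable
  let g : ℕ ≃ ℕ := (Equiv.sigmaFiberEquiv f).symm.trans
    ((Equiv.sigmaCongrRight fun z => (hfib z).some).trans (Equiv.sigmaFiberEquiv f'))
  refine ⟨g, fun x => ?_⟩
  have : g x = ((hfib (f x)).some ⟨x, rfl⟩).1 := rfl
  rw [this]
  exact ((hfib (f x)).some ⟨x, rfl⟩).2.symm

/-- The models of a set of fluted sentences. -/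
def KF (Φ : Set (Fl L)) : Set (Code L) := {c | ∀ φ ∈ Φ, Sat (toI c) φ []}

theorem meas_KF [∀ n, Countable (L.Relations n)] (Φ : Set (Fl L)) : MeasurableSet (KF Φ) := by
  have : KF Φ = ⋂ φ ∈ Φ, {c : Code L | Sat (toI c) φ []} := by
    ext c; simp [KF]
  rw [this]
  exact MeasurableSet.biInter (Set.to_countable Φ) fun φ _ =>
    measurableSet_setOfPred.2 (meas_sat φ [])

theorem ty_nil_iff {I I' : Interp L ℕ} : ty I [] = ty I' [] ↔ ∀ φ, Sat I φ [] ↔ Sat I' φ [] := by
  constructor
  · intro h φ; exact sat_of_ty h φ
  · intro h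
    simp only [ty]
    congr 1
    ext φ
    exact h φ

theorem iso_toI {c c' : Code L} (h : Iso c c') : ∃ g : ℕ ≃ ℕ, ∀ n (R : L.Relations n)
    (v : Fin n → ℕ), toI c n R v ↔ toI c' n R fun k => g (v k) := by
  obtain ⟨g, hg⟩ := h
  refine ⟨g, fun n R v => ?_⟩
  unfold toI
  rw [hg]

/-- The dichotomy for theories axiomatised in the fluted fragment with equality. -/
theorem main [∀ n, Countable (L.Relations n)] (Φ : Set (Fl L)) :
    (∃ g : ℕ → Code L, ∀ c ∈ KF Φ, ∃ n, Iso c (g n)) ∨ PerfK (KF Φ) := by
  classical
  by_cases hfree : ∃ c ∈ KF Φ, ∃ c' : Code L, ty (toI c) [] = ty (toI c') [] ∧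
      ¬ NF (toI c) (toI c')
  · right
    obtain ⟨c, hc, c', -, h⟩ := hfree
    obtain ⟨f, h1, h2, h3⟩ := free_perf h
    refine ⟨f, h1, fun x φ hφ => ?_, h3⟩
    rw [sat_of_ty (h2 x)]
    exact hc φ hφ
  · push Not at hfree
    have : StandardBorelSpace (KF Φ) := (meas_KF Φ).standardBorel
    have hincl : Measurable (fun c : KF Φ => (c.1 : Code L)) := measurable_subtype_coe
    -- the types
    let J1 : ℕ → KF Φ → (List (Fl L) × Fl L → Bool) := fun b c p => decide (p ∈ TT (toI c.1) b)
    have hJ1 : ∀ b, Measurable (J1 b) := by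
      intro b
      rw [measurable_pi_iff]
      intro p
      apply measurable_to_bool
      have : (fun c : KF Φ => J1 b c p) ⁻¹' {true} =
          (fun c : KF Φ => c.1) ⁻¹' {c : Code L | p ∈ TT (toI c) b} := by
        ext c; simp [J1]
      rw [this]
      exact hincl (measurableSet_setOfPred.2 (meas_TT p b))
    have hJ1eq : ∀ (c c' : KF Φ) (b b' : ℕ), J1 b c = J1 b' c' ↔
        TT (toI c.1) b = TT (toI c'.1) b' := by
      intro c c' b b'
      constructor
      · intro h
        ext p
        have := congrFun h p
        simp only [J1, decide_eq_decide] at this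
        exact this
      · intro h
        funext p
        simp only [J1, h]
    have hE1 : ∀ y y' : KF Φ, Iso y.1 y'.1 → ∀ i, ∃ j, J1 i y = J1 j y' := by
      intro y y' h i
      obtain ⟨g, hg⟩ := iso_toI h
      exact ⟨g i, (hJ1eq _ _ _ _).2 (TT_map g hg i)⟩
    by_cases h1 : (⋃ i, Set.range (J1 i)).Countable
    swap
    · right
      exact perfK_of_inv (Y := KF Φ) (Z := List (Fl L) × Fl L → Bool) (ι := ℕ)
        (fun c => c.1) hincl (fun c => c.2) J1 hJ1 hE1 h1
    have hcI : Countable (⋃ i, Set.range (J1 i) : Set (List (Fl L) × Fl L → Bool)) :=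
      h1.to_subtype
    let J2 : Unit → KF Φ → (Fl L ⊕
        ((⋃ i, Set.range (J1 i) : Set (List (Fl L) × Fl L → Bool)) × ℕ) → Bool) := fun _ c =>
      Sum.elim (fun φ => decide (Sat (toI c.1) φ []))
        (fun q => decide (∃ s : Finset ℕ, s.card = q.2 ∧ ∀ x ∈ s, J1 x c = q.1.1))
    have hJ2 : ∀ i, Measurable (J2 i) := by
      intro i
      rw [measurable_pi_iff]
      rintro (φ | q)
      · apply measurable_to_bool
        have : (fun c : KF Φ => J2 i c (Sum.inl φ)) ⁻¹' {true} =
            (fun c : KF Φ => c.1) ⁻¹' {c : Code L | Sat (toI c) φ []} := by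
          ext c; simp [J2]
        rw [this]
        exact hincl (measurableSet_setOfPred.2 (meas_sat φ []))
      · apply measurable_to_bool
        have : (fun c : KF Φ => J2 i c (Sum.inr q)) ⁻¹' {true} =
            {c : KF Φ | ∃ s : Finset ℕ, s.card = q.2 ∧ ∀ x ∈ s, J1 x c = q.1.1} := by
          ext c; simp [J2]
        rw [this]
        apply measurableSet_setOfPred.2
        refine Measurable.exists fun s => measurable_const.and ?_
        refine Measurable.forall fun x => measurable_const.imp ?_
        apply measurableSet_setOfPred.1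
        exact hJ1 x (measurableSet_singleton _)
    have hE2 : ∀ y y' : KF Φ, Iso y.1 y'.1 → ∀ i, ∃ j, J2 i y = J2 j y' := by
      intro y y' h i
      obtain ⟨g, hg⟩ := iso_toI h
      refine ⟨(), ?_⟩
      funext q
      rcases q with φ | q
      · simp only [J2, Sum.elim_inl, decide_eq_decide]
        have := sat_map g hg φ []
        simpa using this
      · simp only [J2, Sum.elim_inr, decide_eq_decide]
        have hx : ∀ x, J1 x y = J1 (g x) y' := fun x => (hJ1eq _ _ _ _).2 (TT_map g hg x)
        constructor
        · rintro ⟨s, hs, hs'⟩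
          refine ⟨s.map g.toEmbedding, by rw [Finset.card_map, hs], fun x hx' => ?_⟩
          rw [Finset.mem_map_equiv] at hx'
          rw [← hs' _ hx', hx]
          simp
        · rintro ⟨s, hs, hs'⟩
          refine ⟨s.map g.symm.toEmbedding, by rw [Finset.card_map, hs], fun x hx' => ?_⟩
          rw [Finset.mem_map_equiv, Equiv.symm_symm] at hx'
          rw [← hs' _ hx', hx]
    by_cases h2 : (⋃ i, Set.range (J2 i)).Countable
    swap
    · right
      exact perfK_of_inv (Y := KF Φ) (ι := Unit)
        (fun c => c.1) hincl (fun c => c.2) J2 hJ2 hE2 h2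
    left
    have hiso : ∀ c c' : KF Φ, J2 () c = J2 () c' → Iso c.1 c'.1 := by
      intro c c' h
      have ht : ty (toI c.1) [] = ty (toI c'.1) [] := by
        rw [ty_nil_iff]
        intro φ
        have := congrFun h (Sum.inl φ)
        simpa only [J2, Sum.elim_inl, decide_eq_decide] using this
      have hNF := hfree c.1 c.2 c'.1 ht
      obtain ⟨g, hg⟩ := exists_perm (fun x => J1 x c) (fun x => J1 x c') (by
        intro z n
        by_cases hz : z ∈ (⋃ i, Set.range (J1 i) : Set (List (Fl L) × Fl L → Bool))
        · have := congrFun h (Sum.inr (⟨z, hz⟩, n))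
          simpa only [J2, Sum.elim_inr, decide_eq_decide] using this
        · have hempty : ∀ (d : KF Φ), (∃ s : Finset ℕ, s.card = n ∧ ∀ x ∈ s, J1 x d = z) ↔
              n = 0 := by
            intro d
            constructor
            · rintro ⟨s, hs, hs'⟩
              rcases s.eq_empty_or_nonempty with h0 | ⟨x, hx⟩
              · rw [← hs, h0]; rfl
              · exact absurd (Set.mem_iUnion.2 ⟨x, Set.mem_range.2 ⟨d, hs' x hx⟩⟩) hz
            · rintro rfl
              exact ⟨∅, rfl, by simp⟩
          rw [hempty c, hempty c'])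
      have hw := iso_of_TT ht hNF g (fun x => (hJ1eq _ _ _ _).1 (hg x))
      have hr := iso_of_ty g (fun w => hw _ w le_rfl)
      refine ⟨g, fun n R v => ?_⟩
      rw [Bool.eq_iff_iff]
      exact hr n R v
    by_cases hne : Nonempty (KF Φ)
    swap
    · refine ⟨fun _ => fun _ => false, fun c hc => ?_⟩
      exact absurd ⟨⟨c, hc⟩⟩ hne
    have hr : (Set.range (J2 ())).Countable := h2.mono (Set.subset_iUnion (fun i => Set.range (J2 i)) ())
    obtain ⟨e, he⟩ := hr.exists_eq_range (Set.range_nonempty _)
    have hpre : ∀ n, ∃ d : KF Φ, J2 () d = e n := by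
      intro n
      have : e n ∈ Set.range (J2 ()) := by rw [he]; exact ⟨n, rfl⟩
      exact this
    choose D hD using hpre
    refine ⟨fun n => (D n).1, fun c hc => ?_⟩
    have : J2 () ⟨c, hc⟩ ∈ Set.range e := by rw [← he]; exact ⟨_, rfl⟩
    obtain ⟨n, hn⟩ := this
    exact ⟨n, hiso ⟨c, hc⟩ (D n) (hn.symm.trans (hD n).symm)⟩

end Pool.Agent.H667.FL
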