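import Pool.Agent.H667.FL.Inv

set_option autoImplicit false

/-!
A failure of uniqueness of amalgams between two structures with the same fluted theory gives a
perfect family.
-/

namespace Pool.Agent.H667.FL

open FirstOrder Set Filter
open Pool.Agent.H565R2.FO2 (Interp Code toI ofI toI_ofI Iso)

variable {L : FirstOrder.Language.{0, 0}}

/-- Uniqueness of amalgams of two structures, outside the named elements. -/
def NF (I I' : Interp L ℕ) : Prop :=
  ∀ (c c' : List ℕ) (b b' : ℕ), c ≠ [] → c.head? ≠ some b → c'.head? ≠ some b' →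
    ty I c = ty I' c' → ty I (b :: c).dropLast = ty I' (b' :: c').dropLast → ¬ Nmd I b →
    (∃ x ∈ c, ¬ Nmd I x) → ty I (b :: c) = ty I' (b' :: c')

theorem split_head {α : Type} (a : α) (l : List α) :
    ∃ (r : ℕ) (κ : List α), l = List.replicate r a ++ κ ∧ κ.head? ≠ some a := by
  classical
  induction l with
  | nil => exact ⟨0, [], rfl, by simp⟩
  | cons b l ih =>
    by_cases h : b = a
    · subst h
      obtain ⟨r, κ, h1, h2⟩ := ih
      exact ⟨r + 1, κ, by rw [h1]; rfl, h2⟩
    · exact ⟨0, b :: l, rfl, by simpa using h⟩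

theorem split_word {α : Type} {a : α} {c : List α} (h : a ∈ c) :
    ∃ (v : List α) (r : ℕ) (κ : List α), c = v ++ (List.replicate (r + 1) a ++ κ) ∧
      κ.head? ≠ some a ∧ v.getLast? ≠ some a := by
  obtain ⟨s, t, rfl⟩ := List.append_of_mem h
  obtain ⟨r1, κ, h1, h2⟩ := split_head a t
  obtain ⟨r2, v, h3, h4⟩ := split_head a s.reverse
  have hs : s = v.reverse ++ List.replicate r2 a := by
    have := congrArg List.reverse h3
    rw [List.reverse_reverse, List.reverse_append, List.reverse_replicate] at this
    exact this
  refine ⟨v.reverse, r1 + r2, κ, ?_, h2, ?_⟩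
  · rw [hs, h1, List.append_assoc]
    congr 1
    rw [show r1 + r2 + 1 = r2 + (r1 + 1) by omega, List.replicate_add, List.append_assoc]
    rfl
  · rw [List.getLast?_reverse]
    exact h4

theorem free_perf [∀ n, Countable (L.Relations n)] {I I' : Interp L ℕ} (h : ¬ NF I I') :
    ∃ f : (ℕ → Bool) → Code L, Continuous f ∧
      (∀ x, ty (toI (f x)) [] = ty I []) ∧ ∀ x x', Iso (f x) (f x') → x = x' := by
  unfold NF at h
  push Not at h
  obtain ⟨c, c', b, b', hc, hcb, hcb', hcc, hdl, hb, ⟨x, hxc, hx⟩, hne⟩ := h
  have hc1 : ty (star I) (c.map cst) = ty I' c' := (ty_cst I c).trans hcc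
  obtain ⟨d, hd⟩ := ext_star I I' hc1 b'
  obtain ⟨B, hS, hBc, hty, hom, htw⟩ := exists_hom I (Set.range cst ∪ {d})
    ((Set.countable_range _).union (Set.countable_singleton _)) ⟨d⟩
  have : Countable B := hBc.to_subtype
  let i : ℕ → B := fun x => ⟨cst x, hS (Or.inl ⟨x, rfl⟩)⟩
  let dB : B := ⟨d, hS (Or.inr rfl)⟩
  have hi : Function.Injective i := fun x y h => cst_inj (congrArg Subtype.val h)
  have hty1 : ∀ w : List ℕ, ty (restr (star I) B) (w.map i) = ty I w := by
    intro w
    rw [hty, List.map_map]
    exact ty_cst I w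
  have hty2 : ty (restr (star I) B) (dB :: c.map i) = ty I' (b' :: c') := by
    rw [hty, List.map_cons, List.map_map]
    exact hd
  obtain ⟨v, r, κ, hcv, hκ, hv⟩ := split_word hxc
  have hking : ∀ y, ¬ Nmd I y → ¬ King (restr (star I) B) (i y) := by
    intro y hy hk
    obtain ⟨z, hz1, hz2⟩ := htw (i y) (fun h => hy (nmd_cst h))
    exact hz1 (hk z hz2)
  have hcv' : v.map i ++ (List.replicate (r + 1) (i x) ++ κ.map i) = c.map i := by
    rw [hcv]; simp
  have hhead : ∀ (w : List ℕ) (y : ℕ), w.head? ≠ some y → (w.map i).head? ≠ some (i y) := by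
    intro w y h h'
    apply h
    match w, h' with
    | z :: w, h' =>
      have : i z = i y := by simpa using h'
      rw [hi this]; rfl
  let C : Fr (restr (star I) B) :=
    { hJ := hom
      vc := v.map i
      ac := i x
      r := r
      κc := κ.map i
      d1 := i b
      d2 := dB
      hκ := hhead κ x hκ
      hv := by
        intro h
        rw [← List.head?_reverse, ← List.map_reverse] at h
        exact hhead v.reverse x (by rw [List.head?_reverse]; exact hv) h
      hka := hking x hx
      hk1 := hking b hb
      h1 := by rw [hcv']; exact hhead c b hcb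
      h2 := by
        rw [hcv']
        intro h
        match c, c', hc with
        | y :: c, y' :: c', _ =>
          have h1 : i y = dB := by simpa using h
          rw [List.map_cons, h1] at hty2
          have := (ty_eq_iff hty2).1 rfl
          subst this
          simp at hcb'
        | y :: c, [], _ => simpa using len_of_ty hcc
      hs := by
        rw [hcv', ty_dropLast hty2, ← hdl, ← hty1, List.map_dropLast, List.map_cons]
      hne := by
        rw [hcv', hty2, ← List.map_cons, hty1]
        exact hne }
  obtain ⟨f, h1, h2, h3⟩ := C.perf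
  refine ⟨f, h1, fun x => ?_, h3⟩
  rw [h2]
  exact hty1 []

end Pool.Agent.H667.FL
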