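import Pool.Agent.H667.FL.Det

set_option autoImplicit false

/-!
Coding a set of natural numbers into a structure, and the perfect family.
-/

namespace Pool.Agent.H667.FL

open FirstOrder Set
open Pool.Agent.H565R2.FO2 (Interp Code toI ofI toI_ofI Iso)

variable {L : FirstOrder.Language.{0, 0}}

section Gen

variable {M M' : Type}

def Row (I : Interp L M) (Q : Ty L) (r : ℕ) (v κ : List M) (a b : M) : Prop :=
  ty I (b :: Fr.wd M r v a κ) = Q

def Sim (I : Interp L M) (Q : Ty L) (r : ℕ) (v κ : List M) (a a' : M) : Prop :=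
  ∀ b, b ≠ a → b ≠ a' → (Row I Q r v κ a b ↔ Row I Q r v κ a' b)

/-- The invariant: some class of similar elements has exactly `m` members. -/
def Jn (I : Interp L M) (p q r : ℕ) (P Q : Ty L) (m : ℕ) : Prop :=
  ∃ v κ : List M, v.length = p ∧ κ.length = q ∧ ∃ a, ty I (Fr.wd M r v a κ) = P ∧
    ∃ s : Finset M, s.card = m ∧ ∀ a', a' ∈ s ↔
      (ty I (Fr.wd M r v a' κ) = P ∧ Sim I Q r v κ a a')

theorem wd_map (g : M → M') (r : ℕ) (v : List M) (a : M) (κ : List M) :
    (Fr.wd M r v a κ).map g = Fr.wd M' r (v.map g) (g a) (κ.map g) := by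
  simp [Fr.wd]

theorem jn_iso {I : Interp L M} {I' : Interp L M'} (g : M ≃ M')
    (hg : ∀ n (R : L.Relations n) (v : Fin n → M), I n R v ↔ I' n R (fun k => g (v k)))
    {p q r : ℕ} {P Q : Ty L} {m : ℕ} (h : Jn I p q r P Q m) : Jn I' p q r P Q m := by
  obtain ⟨v, κ, hv, hκ, a, ha, s, hs, hs'⟩ := h
  have hval : ∀ a, ty I (Fr.wd M r v a κ) = ty I' (Fr.wd M' r (v.map g) (g a) (κ.map g)) := by
    intro a
    rw [ty_map g hg, wd_map]
  have hrow : ∀ a b, Row I Q r v κ a b ↔ Row I' Q r (v.map g) (κ.map g) (g a) (g b) := by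
    intro a b
    unfold Row
    rw [ty_map g hg, List.map_cons, wd_map]
  have hsim : ∀ a a', Sim I Q r v κ a a' ↔ Sim I' Q r (v.map g) (κ.map g) (g a) (g a') := by
    intro a a'
    unfold Sim
    constructor
    · intro h b h1 h2
      have := h (g.symm b) (by rintro rfl; simp at h1) (by rintro rfl; simp at h2)
      rw [hrow, hrow] at this
      simpa using this
    · intro h b h1 h2
      rw [hrow, hrow]
      exact h (g b) (fun h => h1 (g.injective h)) (fun h => h2 (g.injective h))
  refine ⟨v.map g, κ.map g, by simpa using hv, by simpa using hκ, g a, by rw [← hval, ha],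
    s.map g.toEmbedding, by rw [Finset.card_map, hs], fun a' => ?_⟩
  rw [Finset.mem_map_equiv, hs', hval, hsim]
  simp

end Gen

variable {B : Type} {J : Interp L B}

namespace Fr

variable (C : Fr J) [Countable B]

theorem exists_base : ∃ (v κ : List (W J)) (e : (Σ n : ℕ, Fin (n + 2)) → W J),
    v.length = C.vc.length ∧ κ.length = C.κc.length ∧ Function.Injective e ∧
    ∀ p, ty J (tw (C.chS fun _ => 0) (wd _ C.r v (e p) κ)) = C.P0 := by
  have hadm := C.chS_adm (fun _ => 0)
  obtain ⟨κ, hκ, hκt⟩ := realize C.hJ hadm C.κc [] [] (by rw [tw_nil])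
  rw [List.append_nil, List.append_nil] at hκt
  obtain ⟨d, hd⟩ := C.hJ _ _ hκt.symm C.ac
  have hdk : ¬ King J d := fun hk => C.hka (king_of_ty (ty_single hd) hk)
  have hdh : (tw (C.chS fun _ => 0) κ).head? ≠ some d := by
    intro h
    match hc : tw (C.chS fun _ => 0) κ, h with
    | x :: u, h =>
      have hx : x = d := by simpa using h
      subst hx
      rw [hc] at hd
      match hc' : C.κc with
      | [] => rw [hc'] at hd; simpa using len_of_ty hd
      | y :: c =>
        rw [hc'] at hd
        have := (ty_eq_iff hd).2 rfl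
        apply C.hκ
        rw [hc', this]; rfl
  have hinf : ∀ F : List (W J), ∃ b, b ∉ F ∧
      ty J (tw (C.chS fun _ => 0) (b :: κ)) = ty J (C.ac :: C.κc) := by
    intro F
    obtain ⟨b, hb, -, -, hbt, -⟩ := adeq C.hJ hadm _ κ le_rfl d hdk hdh F (fun _ => 0) 0
    exact ⟨b, hb, hbt.trans hd.symm⟩
  obtain ⟨a0, -, ha0⟩ := hinf []
  have hrep : ∀ r, ty J (tw (C.chS fun _ => 0) (List.replicate (r + 1) a0 ++ κ)) =
      ty J (List.replicate (r + 1) C.ac ++ C.κc) := by
    intro r
    induction r with
    | zero => exact ha0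
    | succ r ih =>
      have e : List.replicate (r + 1 + 1) a0 ++ κ = a0 :: (List.replicate (r + 1) a0 ++ κ) := rfl
      obtain ⟨x, u, h1, h2⟩ := tw_head (C.chS fun _ => 0) a0
        (w := List.replicate (r + 1) a0 ++ κ) rfl
      rw [e, h2]
      rw [h1] at ih
      have ih' : ty J (x :: u) = ty J (C.ac :: (List.replicate r C.ac ++ C.κc)) := ih
      exact ty_rep ih'
  obtain ⟨v, hv, hvt⟩ := realize C.hJ hadm C.vc _ _ (hrep C.r)
  have hvt' : ty J (tw (C.chS fun _ => 0) (wd _ C.r v a0 κ)) = C.P0 := hvt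
  have hl0 := C.val_last hv hκ hvt'
  let A : Set (W J) := {a | ty J (tw (C.chS fun _ => 0) (a :: κ)) = ty J (C.ac :: C.κc) ∧
    v.getLast? ≠ some a}
  have hA : A.Infinite := by
    intro hfin
    obtain ⟨b, hb, hbt⟩ := hinf (hfin.toFinset.toList ++ v)
    have : b ∈ A := by
      refine ⟨hbt, fun h => hb (List.mem_append_right _ ?_)⟩
      exact List.mem_of_getLast? h
    apply hb
    apply List.mem_append_left
    rw [Finset.mem_toList, Set.Finite.mem_toFinset]
    exact this
  obtain ⟨g, hg⟩ := exists_injective_nat (Σ n : ℕ, Fin (n + 2))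
  refine ⟨v, κ, fun p => (Set.Infinite.natEmbedding A hA (g p)).1, hv, hκ, ?_, ?_⟩
  · intro p p' h
    exact hg ((Set.Infinite.natEmbedding A hA).injective (Subtype.ext h))
  · intro p
    have h1 := (Set.Infinite.natEmbedding A hA (g p)).2
    rw [← hvt']
    have h2 := det C.hJ hadm C.k (C.chS_pl _) C.k le_rfl v (C.r + 1) κ
      (Set.Infinite.natEmbedding A hA (g p)).1 a0 (by rw [k_eq, hv, hκ]) (h1.1.trans ha0.symm)
      h1.2 hl0
    exact h2

/-- The base of the coding. -/
noncomputable def vs : List (W J) := C.exists_base.choose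
noncomputable def ks : List (W J) := C.exists_base.choose_spec.choose
noncomputable def es : (Σ n : ℕ, Fin (n + 2)) → W J := C.exists_base.choose_spec.choose_spec.choose

theorem vs_len : C.vs.length = C.vc.length :=
  C.exists_base.choose_spec.choose_spec.choose_spec.1
theorem ks_len : C.ks.length = C.κc.length :=
  C.exists_base.choose_spec.choose_spec.choose_spec.2.1
theorem es_inj : Function.Injective C.es :=
  C.exists_base.choose_spec.choose_spec.choose_spec.2.2.1
theorem es_val0 (p : Σ n : ℕ, Fin (n + 2)) :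
    ty J (tw (C.chS fun _ => 0) (wd _ C.r C.vs (C.es p) C.ks)) = C.P0 :=
  C.exists_base.choose_spec.choose_spec.choose_spec.2.2.2 p

theorem es_val (cd : List (W J) → ℕ) (p : Σ n : ℕ, Fin (n + 2)) :
    ty J (tw (C.chS cd) (wd _ C.r C.vs (C.es p) C.ks)) = C.P0 := by
  rw [← C.es_val0 p]
  congr 1
  refine tw_agree C.k ?_ C.k le_rfl _ ?_
  · intro w P P' ℓ h
    exact C.chS_short _ _ w P P' ℓ h
  · rw [wd_len, k_eq, vs_len, ks_len]

open Classical in
/-- Merging the groups of a set. -/
noncomputable def mg (S : ℕ → Bool) (o : Option (W J)) : Option (W J) :=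
  if h : ∃ n, S n = true ∧ ∃ i, o = some (C.es ⟨n, i⟩) then some (C.es ⟨h.choose, 0⟩) else o

theorem mg_es (S : ℕ → Bool) (n : ℕ) (i : Fin (n + 2)) :
    C.mg S (some (C.es ⟨n, i⟩)) = if S n = true then some (C.es ⟨n, 0⟩)
      else some (C.es ⟨n, i⟩) := by
  unfold mg
  by_cases hn : S n = true
  · have h : ∃ m, S m = true ∧ ∃ j, some (C.es ⟨n, i⟩) = some (C.es ⟨m, j⟩) :=
      ⟨n, hn, i, rfl⟩
    rw [dif_pos h, if_pos hn]
    obtain ⟨j, hj⟩ := h.choose_spec.2
    have h1 := C.es_inj (Option.some.inj hj)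
    have h2 : h.choose = n := (congrArg Sigma.fst h1).symm
    have h3 : ∀ m, m = n → some (C.es ⟨m, 0⟩) = some (C.es ⟨n, 0⟩) := by
      rintro m rfl; rfl
    exact h3 _ h2
  · rw [dif_neg, if_neg hn]
    rintro ⟨m, hm, j, hj⟩
    have h1 := C.es_inj (Option.some.inj hj)
    have h2 : n = m := congrArg Sigma.fst h1
    exact hn (h2 ▸ hm)

theorem mg_ne (S : ℕ → Bool) (o : Option (W J)) (h : ∀ p, o ≠ some (C.es p)) : C.mg S o = o := by
  unfold mg
  rw [dif_neg]
  rintro ⟨n, -, i, hi⟩
  exact h _ hi

omit C in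
theorem exists_enc : ∃ g : List (W J) × List (W J) × Option (W J) → ℕ, Function.Injective g :=
  exists_injective_nat _

omit C in
variable (J) in
noncomputable def enc : List (W J) × List (W J) × Option (W J) → ℕ :=
  (exists_enc (J := J)).choose

omit C in
theorem enc_inj : Function.Injective (enc J) := (exists_enc (J := J)).choose_spec

open Classical in
/-- The code of a word. -/
noncomputable def cdS (S : ℕ → Bool) (w : List (W J)) : ℕ :=
  enc J (w.take C.vc.length, w.drop (C.vc.length + (C.r + 1)),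
    if w.take C.vc.length = C.vs ∧ w.drop (C.vc.length + (C.r + 1)) = C.ks then
      C.mg S (w.drop C.vc.length).head? else (w.drop C.vc.length).head?)

open Classical in
theorem cdS_wd (S : ℕ → Bool) {v κ : List (W J)} (a : W J) (hv : v.length = C.vc.length) :
    C.cdS S (wd _ C.r v a κ) =
      enc J (v, κ, if v = C.vs ∧ κ = C.ks then C.mg S (some a) else some a) := by
  have e1 : (wd _ C.r v a κ).take C.vc.length = v := by
    unfold wd; exact List.take_left' hv
  have e2 : (wd _ C.r v a κ).drop C.vc.length = List.replicate (C.r + 1) a ++ κ := by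
    unfold wd; exact List.drop_left' hv
  have e3 : (wd _ C.r v a κ).drop (C.vc.length + (C.r + 1)) = κ := by
    rw [← List.drop_drop, e2]
    exact List.drop_left' (by simp)
  have e4 : (List.replicate (C.r + 1) a ++ κ).head? = some a := rfl
  unfold cdS
  rw [e1, e2, e3, e4]

theorem cd_other (S : ℕ → Bool) {v κ : List (W J)} {a a' : W J} (hv : v.length = C.vc.length)
    (h : ¬ (v = C.vs ∧ κ = C.ks)) :
    C.cdS S (wd _ C.r v a κ) = C.cdS S (wd _ C.r v a' κ) ↔ a = a' := by
  rw [cdS_wd C S a hv, cdS_wd C S a' hv, if_neg h, if_neg h]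
  constructor
  · intro h1
    have := enc_inj h1
    simpa using this
  · rintro rfl; rfl

theorem cd_base (S : ℕ → Bool) {a a' : W J} :
    C.cdS S (wd _ C.r C.vs a C.ks) = C.cdS S (wd _ C.r C.vs a' C.ks) ↔
      C.mg S (some a) = C.mg S (some a') := by
  rw [cdS_wd C S a C.vs_len, cdS_wd C S a' C.vs_len, if_pos ⟨rfl, rfl⟩, if_pos ⟨rfl, rfl⟩]
  constructor
  · intro h1
    have := enc_inj h1
    simpa using this
  · intro h; rw [h]

/-- The structure coding a set. -/
noncomputable def X (S : ℕ → Bool) : Interp L (W J) := str (C.chS (C.cdS S))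

theorem ty_X (S : ℕ → Bool) (w : List (W J)) :
    ty (C.X S) w = ty J (tw (C.chS (C.cdS S)) w) := ty_str C.hJ (C.chS_adm _) w

theorem sim_iff (S : ℕ → Bool) {v κ : List (W J)} {a a' : W J} (hv : v.length = C.vc.length)
    (hκ : κ.length = C.κc.length) (ha : ty (C.X S) (wd _ C.r v a κ) = C.P0)
    (ha' : ty (C.X S) (wd _ C.r v a' κ) = C.P0) :
    Sim (C.X S) C.Q1 C.r v κ a a' ↔
      C.cdS S (wd _ C.r v a κ) = C.cdS S (wd _ C.r v a' κ) := by
  rw [ty_X] at ha ha'
  constructor
  · intro h
    by_contra hne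
    obtain ⟨b, h1, h2, h3, h4⟩ := C.row_diff hv hκ ha ha' hne
    have := h b h1 h2
    unfold Row at this
    rw [ty_X, ty_X] at this
    exact h4 (this.1 h3)
  · intro h b h1 h2
    unfold Row
    rw [ty_X, ty_X]
    exact ⟨fun h3 => C.row_same hv hκ ha ha' h h1 h2 h3,
      fun h3 => C.row_same hv hκ ha' ha h.symm h2 h1 h3⟩

theorem jn_iff (S : ℕ → Bool) (n : ℕ) :
    Jn (C.X S) C.vc.length C.κc.length C.r C.P0 C.Q1 (n + 2) ↔ S n = true := by
  classical
  have hval : ∀ p, ty (C.X S) (wd _ C.r C.vs (C.es p) C.ks) = C.P0 := by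
    intro p
    rw [ty_X]; exact C.es_val _ p
  have hinj : ∀ m, Function.Injective (fun i : Fin (m + 2) => C.es ⟨m, i⟩) := by
    intro m i j h
    have := C.es_inj h
    simpa using this
  have hmerge : ∀ a m, S m = true → (C.mg S (some a) = some (C.es ⟨m, 0⟩) ↔
      ∃ i, a = C.es ⟨m, i⟩) := by
    intro a m hm
    constructor
    · intro h
      by_cases ha : ∃ p, some a = some (C.es p)
      · obtain ⟨⟨m', i⟩, hp⟩ := ha
        rw [hp, mg_es] at h
        split_ifs at h with hm'
        · have h1 := C.es_inj (Option.some.inj h)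
          have h2 : m' = m := congrArg Sigma.fst h1
          subst h2
          exact ⟨i, Option.some.inj hp⟩
        · have h1 := C.es_inj (Option.some.inj h)
          have h2 : m' = m := congrArg Sigma.fst h1
          exact absurd (h2 ▸ hm) hm'
      · push Not at ha
        rw [C.mg_ne S _ ha] at h
        exact ⟨0, Option.some.inj h⟩
    · rintro ⟨i, rfl⟩
      rw [mg_es, if_pos hm]
  constructor
  · rintro ⟨v, κ, hv, hκ, a, ha, s, hs, hs'⟩
    by_cases hb : v = C.vs ∧ κ = C.ks
    · obtain ⟨rfl, rfl⟩ := hb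
      by_cases hg : ∃ m, S m = true ∧ ∃ i, a = C.es ⟨m, i⟩
      · obtain ⟨m, hm, i, rfl⟩ := hg
        have : s = Finset.univ.image (fun i : Fin (m + 2) => C.es ⟨m, i⟩) := by
          ext a'
          rw [hs', Finset.mem_image]
          constructor
          · rintro ⟨h1, h2⟩
            rw [C.sim_iff S C.vs_len C.ks_len ha h1, cd_base, mg_es, if_pos hm, eq_comm,
              hmerge a' m hm] at h2
            obtain ⟨j, hj⟩ := h2
            exact ⟨j, Finset.mem_univ _, hj.symm⟩
          · rintro ⟨j, -, rfl⟩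
            refine ⟨hval _, ?_⟩
            rw [C.sim_iff S C.vs_len C.ks_len ha (hval _), cd_base, mg_es, mg_es, if_pos hm,
              if_pos hm]
        rw [this, Finset.card_image_of_injective _ (hinj m), Finset.card_univ,
          Fintype.card_fin] at hs
        have : m = n := by omega
        rw [← this]; exact hm
      · exfalso
        have hmga : C.mg S (some a) = some a := by
          by_cases hp : ∃ p, some a = some (C.es p)
          · obtain ⟨⟨m, i⟩, hp⟩ := hp
            rw [hp, mg_es, if_neg]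
            intro hm
            exact hg ⟨m, hm, i, Option.some.inj hp⟩
          · push Not at hp
            exact C.mg_ne S _ hp
        have hsub : s ⊆ {a} := by
          intro a' ha'
          obtain ⟨h1, h2⟩ := (hs' a').1 ha'
          rw [C.sim_iff S C.vs_len C.ks_len ha h1, cd_base, hmga] at h2
          rw [Finset.mem_singleton]
          by_cases hp : ∃ p, some a' = some (C.es p)
          · obtain ⟨⟨m, i⟩, hp⟩ := hp
            rw [hp, mg_es] at h2
            split_ifs at h2 with hm
            · exact absurd ⟨m, hm, 0, Option.some.inj h2⟩ hg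
            · rw [← hp] at h2
              exact (Option.some.inj h2).symm
          · push Not at hp
            rw [C.mg_ne S _ hp] at h2
            exact (Option.some.inj h2).symm
        have := Finset.card_le_card hsub
        rw [Finset.card_singleton] at this
        omega
    · exfalso
      have hsub : s ⊆ {a} := by
        intro a' ha'
        obtain ⟨h1, h2⟩ := (hs' a').1 ha'
        rw [C.sim_iff S hv hκ ha h1, C.cd_other S hv hb] at h2
        rw [Finset.mem_singleton]
        exact h2.symm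
      have := Finset.card_le_card hsub
      rw [Finset.card_singleton] at this
      omega
  · intro hn
    refine ⟨C.vs, C.ks, C.vs_len, C.ks_len, C.es ⟨n, 0⟩, hval _,
      Finset.univ.image (fun i : Fin (n + 2) => C.es ⟨n, i⟩), ?_, ?_⟩
    · rw [Finset.card_image_of_injective _ (hinj n), Finset.card_univ, Fintype.card_fin]
    · intro a'
      rw [Finset.mem_image]
      constructor
      · rintro ⟨j, -, rfl⟩
        refine ⟨hval _, ?_⟩
        rw [C.sim_iff S C.vs_len C.ks_len (hval _) (hval _), cd_base, mg_es, mg_es, if_pos hn,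
          if_pos hn]
      · rintro ⟨h1, h2⟩
        rw [C.sim_iff S C.vs_len C.ks_len (hval _) h1, cd_base, mg_es, if_pos hn, eq_comm,
          hmerge a' n hn] at h2
        obtain ⟨j, hj⟩ := h2
        exact ⟨j, Finset.mem_univ _, hj.symm⟩

/-- Finite dependence. -/
theorem mg_dep (o : Option (W J)) : ∃ F : Finset ℕ, ∀ S S' : ℕ → Bool,
    (∀ n ∈ F, S n = S' n) → C.mg S o = C.mg S' o := by
  by_cases hp : ∃ p, o = some (C.es p)
  · obtain ⟨⟨m, i⟩, rfl⟩ := hp
    refine ⟨{m}, fun S S' h => ?_⟩
    rw [mg_es, mg_es, h m (Finset.mem_singleton_self _)]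
  · push Not at hp
    exact ⟨∅, fun S S' _ => by rw [C.mg_ne S _ hp, C.mg_ne S' _ hp]⟩

theorem cd_dep (w : List (W J)) : ∃ F : Finset ℕ, ∀ S S' : ℕ → Bool,
    (∀ n ∈ F, S n = S' n) → C.cdS S w = C.cdS S' w := by
  obtain ⟨F, hF⟩ := C.mg_dep (w.drop C.vc.length).head?
  refine ⟨F, fun S S' h => ?_⟩
  unfold cdS
  rw [hF S S' h]

theorem tw_dep : ∀ n, ∀ w : List (W J), w.length ≤ n → ∃ F : Finset ℕ, ∀ S S' : ℕ → Bool,
    (∀ n ∈ F, S n = S' n) → tw (C.chS (C.cdS S)) w = tw (C.chS (C.cdS S')) w := by
  classical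
  intro n
  induction n with
  | zero =>
    intro w hw
    have : w = [] := List.length_eq_zero_iff.1 (by omega)
    subst this
    exact ⟨∅, fun S S' _ => by rw [tw_nil, tw_nil]⟩
  | succ n ih =>
    intro w hw
    match w, hw with
    | [], _ => exact ⟨∅, fun S S' _ => by rw [tw_nil, tw_nil]⟩
    | b :: w, hw =>
      by_cases hw0 : w = []
      · subst hw0
        exact ⟨∅, fun S S' _ => by rw [tw_one, tw_one]⟩
      · obtain ⟨F1, h1⟩ := ih w (by simpa using hw)
        obtain ⟨F2, h2⟩ := ih (b :: w.dropLast) (by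
          have : w.length ≠ 0 := fun h => hw0 (List.length_eq_zero_iff.1 h)
          simp [List.length_dropLast] at hw ⊢; omega)
        obtain ⟨F3, h3⟩ := C.cd_dep w
        refine ⟨F1 ∪ (F2 ∪ F3), fun S S' h => ?_⟩
        rw [tw_cons _ b hw0, tw_cons _ b hw0,
          h1 S S' fun n hn => h n (Finset.mem_union_left _ hn),
          h2 S S' fun n hn => h n (Finset.mem_union_right _ (Finset.mem_union_left _ hn))]
        congr 1
        unfold nx chS
        rw [h3 S S' fun n hn => h n (Finset.mem_union_right _ (Finset.mem_union_right _ hn))]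

omit C [Countable B] in
theorem continuous_of_dep (f : (ℕ → Bool) → Bool)
    (h : ∃ F : Finset ℕ, ∀ S S' : ℕ → Bool, (∀ n ∈ F, S n = S' n) → f S = f S') :
    Continuous f := by
  classical
  obtain ⟨F, hF⟩ := h
  let res : (ℕ → Bool) → (F → Bool) := fun S n => S n
  let ext : (F → Bool) → (ℕ → Bool) := fun z n => if h : n ∈ F then z ⟨n, h⟩ else false
  have h1 : f = (fun z => f (ext z)) ∘ res := by
    funext S
    refine hF _ _ fun n hn => ?_
    simp [ext, res, hn]
  rw [h1]
  exact continuous_of_discreteTopology.comp (continuous_pi fun n => continuous_apply _)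

include C in
/-- The perfect family of a configuration with freedom. -/
theorem perf : ∃ f : (ℕ → Bool) → Code L, Continuous f ∧
    (∀ x, ty (toI (f x)) [] = ty J []) ∧ ∀ x x', Iso (f x) (f x') → x = x' := by
  classical
  have : Infinite (W J) := Infinite.of_injective (fun n : ℕ => C.es ⟨n, 0⟩) (by
    intro n m h
    exact congrArg Sigma.fst (C.es_inj h))
  obtain ⟨g⟩ : Nonempty (W J ≃ ℕ) := nonempty_equiv_of_countable
  let Y : (ℕ → Bool) → Interp L ℕ := fun x n R v => C.X x n R fun k => g.symm (v k)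
  have hY : ∀ x n (R : L.Relations n) (v : Fin n → W J), C.X x n R v ↔ Y x n R fun k => g (v k) := by
    intro x n R v
    simp [Y]
  refine ⟨fun x => ofI (Y x), ?_, ?_, ?_⟩
  · rw [continuous_pi_iff]
    rintro ⟨n, R, t⟩
    apply continuous_of_dep
    obtain ⟨F, hF⟩ := C.tw_dep _ (List.ofFn fun k => g.symm (t k)).reverse le_rfl
    refine ⟨F, fun S S' h => ?_⟩
    have hYY : Y S n R t ↔ Y S' n R t := by
      show Sat J (.rel R) (tw (C.chS (C.cdS S)) _) ↔ Sat J (.rel R) (tw (C.chS (C.cdS S')) _)
      rw [hF S S' h]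
    simp only [ofI, decide_eq_decide]
    exact hYY
  · intro x
    rw [toI_ofI, ← List.map_nil (f := g), ← ty_map g (hY x), ty_X, tw_nil]
  · intro x x' hI
    obtain ⟨h, hh⟩ := hI
    have hiso : ∀ n (R : L.Relations n) (v : Fin n → ℕ), Y x n R v ↔
        Y x' n R fun k => h (v k) := by
      intro n R v
      have := hh n R v
      simpa [ofI] using this
    have hX : ∀ n (R : L.Relations n) (v : Fin n → W J), C.X x n R v ↔
        C.X x' n R fun k => (g.trans (h.trans g.symm)) (v k) := by
      intro n R v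
      rw [hY x, hiso]
      rw [hY x']
      simp
    have hX' : ∀ n (R : L.Relations n) (v : Fin n → W J), C.X x' n R v ↔
        C.X x n R fun k => (g.trans (h.trans g.symm)).symm (v k) := by
      intro n R v
      rw [hX]
      simp
    funext n
    rw [Bool.eq_iff_iff, ← C.jn_iff x, ← C.jn_iff x']
    exact ⟨jn_iso _ hX, jn_iso _ hX'⟩

end Fr

end Pool.Agent.H667.FL
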