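import Pool.Graph.R_seed8.H834V.Adapt

set_option autoImplicit false

/-!
The fluted fragment with equality, evaluated on words (the head of a word is the value of the last
variable), and types of words.
-/

namespace Pool.Agent.H667.FL

open FirstOrder Set
open Pool.Agent.H565R2.FO2 (Interp Code toI ofI toI_ofI Iso)
open Pool.Agent.H565R2.LO2 (PerfK perfK_of_inv)

/-- Formulas of the fluted (forward) fragment with equality; `prev φ` is `φ`, in which the last
variable does not occur. -/
inductive Fl (L : FirstOrder.Language.{0, 0}) : Type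
  | bot : Fl L
  | eq : Fl L
  | rel {n : ℕ} (R : L.Relations n) : Fl L
  | imp (φ ψ : Fl L) : Fl L
  | ex (φ : Fl L) : Fl L
  | prev (φ : Fl L) : Fl L

variable {L : FirstOrder.Language.{0, 0}} {M M' : Type}

/-- Satisfaction of a fluted formula on a word; the head of the word is the last variable. -/
def Sat (I : Interp L M) : Fl L → List M → Prop
  | .bot, _ => False
  | .eq, w => ∃ a v, w = a :: a :: v
  | .rel (n := n) R, w => ∃ (v : Fin n → M) (u : List M), w = (List.ofFn v).reverse ++ u ∧ I n R v
  | .imp φ ψ, w => Sat I φ w → Sat I ψ w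
  | .ex φ, w => ∃ b, Sat I φ (b :: w)
  | .prev φ, w => Sat I φ w.tail

namespace Fl

def neg (φ : Fl L) : Fl L := .imp φ .bot
def and (φ ψ : Fl L) : Fl L := neg (.imp φ (neg ψ))

end Fl

theorem sat_neg (I : Interp L M) (φ : Fl L) (w : List M) : Sat I φ.neg w ↔ ¬ Sat I φ w := Iff.rfl

theorem sat_and (I : Interp L M) (φ ψ : Fl L) (w : List M) :
    Sat I (φ.and ψ) w ↔ Sat I φ w ∧ Sat I ψ w := by
  unfold Fl.and
  rw [sat_neg]
  simp only [Sat, sat_neg]
  tauto

instance countable_fl [∀ n, Countable (L.Relations n)] : Countable (Fl L) := by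
  let lev : ℕ → Set (Fl L) := fun n => Nat.rec ∅ (fun _ s =>
    ({Fl.bot, Fl.eq} ∪ ⋃ k, Set.range (fun R : L.Relations k => Fl.rel R)) ∪
      (Set.image2 Fl.imp s s ∪ (Fl.ex '' s ∪ Fl.prev '' s))) n
  have hlev : ∀ n, lev (n + 1) =
    ({Fl.bot, Fl.eq} ∪ ⋃ k, Set.range (fun R : L.Relations k => Fl.rel R)) ∪
      (Set.image2 Fl.imp (lev n) (lev n) ∪ (Fl.ex '' (lev n) ∪ Fl.prev '' (lev n))) :=
    fun n => rfl
  have hc : ∀ n, (lev n).Countable := by
    intro n
    induction n with
    | zero => exact Set.countable_empty
    | succ n ih =>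
      rw [hlev]
      refine ((((Set.countable_singleton _).insert _).union
        (Set.countable_iUnion fun k => Set.countable_range _))).union
        ((ih.image2 ih _).union ((ih.image _).union (ih.image _)))
  have hm : ∀ n m, n ≤ m → lev n ⊆ lev m := by
    have h1 : ∀ n, lev n ⊆ lev (n + 1) := by
      intro n
      induction n with
      | zero => exact Set.empty_subset _
      | succ n ih =>
        rw [hlev, hlev (n + 1)]
        exact Set.union_subset_union le_rfl
          (Set.union_subset_union (Set.image2_subset ih ih)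
            (Set.union_subset_union (Set.image_mono ih) (Set.image_mono ih)))
    intro n m h
    induction h with
    | refl => exact le_rfl
    | step _ ih => exact ih.trans (h1 _)
  have hall : ∀ φ : Fl L, ∃ n, φ ∈ lev n := by
    intro φ
    induction φ with
    | bot => exact ⟨1, Or.inl (Or.inl (Or.inl rfl))⟩
    | eq => exact ⟨1, Or.inl (Or.inl (Or.inr rfl))⟩
    | rel R => exact ⟨1, Or.inl (Or.inr (Set.mem_iUnion.2 ⟨_, R, rfl⟩))⟩
    | imp φ ψ h1 h2 =>
      obtain ⟨n, hn⟩ := h1
      obtain ⟨m, hm'⟩ := h2
      exact ⟨max n m + 1, Or.inr (Or.inl ⟨φ, hm _ _ (le_max_left _ _) hn, ψ,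
        hm _ _ (le_max_right _ _) hm', rfl⟩)⟩
    | ex φ h1 =>
      obtain ⟨n, hn⟩ := h1
      exact ⟨n + 1, Or.inr (Or.inr (Or.inl ⟨φ, hn, rfl⟩))⟩
    | prev φ h1 =>
      obtain ⟨n, hn⟩ := h1
      exact ⟨n + 1, Or.inr (Or.inr (Or.inr ⟨φ, hn, rfl⟩))⟩
  have : (Set.univ : Set (Fl L)) = ⋃ n, lev n := by
    ext φ
    simp only [Set.mem_univ, Set.mem_iUnion, true_iff]
    exact hall φ
  rw [← Set.countable_univ_iff, this]
  exact Set.countable_iUnion hc

theorem sat_rel_iff (I : Interp L M) {n : ℕ} (R : L.Relations n) (v : Fin n → M) (u : List M) :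
    Sat I (.rel R) ((List.ofFn v).reverse ++ u) ↔ I n R v := by
  constructor
  · rintro ⟨v', u', h, hI⟩
    have h1 := List.append_inj h (by simp)
    have h2 : List.ofFn v = List.ofFn v' := List.reverse_injective h1.1
    have h3 : v = v' := List.ofFn_injective h2
    rw [h3]; exact hI
  · intro h
    exact ⟨v, u, rfl, h⟩

/-- A word of length at least `n` ends in a word of length `n`. -/
theorem exists_word {n : ℕ} {w : List M} (h : n ≤ w.length) :
    ∃ (v : Fin n → M) (u : List M), w = (List.ofFn v).reverse ++ u := by
  have hl : (w.take n).reverse.length = n := by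
    rw [List.length_reverse, List.length_take]; omega
  refine ⟨fun i => (w.take n).reverse.get (Fin.cast hl.symm i), w.drop n, ?_⟩
  have : List.ofFn (fun i : Fin n => (w.take n).reverse.get (Fin.cast hl.symm i)) =
      (w.take n).reverse := by
    apply List.ext_get
    · simp [h]
    · intro i h1 h2
      simp
  rw [this, List.reverse_reverse, List.take_append_drop]

theorem sat_rel_len (I : Interp L M) {n : ℕ} (R : L.Relations n) {w : List M}
    (h : Sat I (.rel R) w) : n ≤ w.length := by
  obtain ⟨v, u, rfl, -⟩ := h
  simp

open Classical in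
/-- Shift: add a dummy first variable to a formula evaluated on words of length `k`. -/
noncomputable def sh : ℕ → Fl L → Fl L
  | _, .bot => .bot
  | k, .eq => if 2 ≤ k then .eq else .bot
  | k, .rel (n := n) R => if n ≤ k then .rel R else .bot
  | k, .imp φ ψ => .imp (sh k φ) (sh k ψ)
  | k, .ex φ => .ex (sh (k + 1) φ)
  | 0, .prev φ => .prev φ
  | k + 1, .prev φ => .prev (sh k φ)

theorem sat_sh (I : Interp L M) (φ : Fl L) : ∀ (k : ℕ) (w : List M) (a : M), w.length = k →
    (Sat I (sh k φ) (w ++ [a]) ↔ Sat I φ w) := by
  induction φ with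
  | bot => intro k w a _; exact Iff.rfl
  | eq =>
    intro k w a hk
    unfold sh
    split_ifs with h
    · match w, hk with
      | x :: y :: u, _ => simp [Sat]
      | [x], hk => simp at hk; omega
      | [], hk => simp at hk; omega
    · match w, hk with
      | x :: y :: u, hk => simp at hk; omega
      | [x], _ => simp [Sat]
      | [], _ => simp [Sat]
  | @rel n R =>
    intro k w a hk
    unfold sh
    split_ifs with h
    · obtain ⟨v, u, rfl⟩ := exists_word (n := n) (w := w) (by omega)
      rw [List.append_assoc, sat_rel_iff, sat_rel_iff]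
    · constructor
      · intro h'; exact h'.elim
      · intro h'
        exact absurd (sat_rel_len I R h') (by omega)
  | imp φ ψ h1 h2 =>
    intro k w a hk
    simp only [sh, Sat, h1 k w a hk, h2 k w a hk]
  | ex φ h1 =>
    intro k w a hk
    simp only [sh, Sat]
    constructor
    · rintro ⟨b, hb⟩
      exact ⟨b, (h1 (k + 1) (b :: w) a (by simp [hk])).1 hb⟩
    · rintro ⟨b, hb⟩
      exact ⟨b, (h1 (k + 1) (b :: w) a (by simp [hk])).2 hb⟩
  | prev φ h1 =>
    intro k w a hk
    match k, w, hk with
    | 0, [], _ => simp [sh, Sat]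
    | k + 1, b :: w, hk =>
      simp only [sh, Sat, List.cons_append, List.tail_cons]
      exact h1 k w a (by simpa using hk)

/-- Lift a formula of one variable to the last variable of words of length `k + 1`. -/
noncomputable def up : ℕ → Fl L → Fl L
  | 0, φ => φ
  | k + 1, φ => sh (k + 1) (up k φ)

theorem sat_up (I : Interp L M) (φ : Fl L) (k : ℕ) : ∀ (w : List M) (b : M), w.length = k →
    (Sat I (up k φ) (b :: w) ↔ Sat I φ [b]) := by
  induction k with
  | zero =>
    intro w b hw
    rw [List.length_eq_zero_iff] at hw
    subst hw; exact Iff.rfl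
  | succ k ih =>
    intro w b hw
    obtain ⟨u, a, rfl⟩ : ∃ u a, w = u ++ [a] := by
      rcases List.eq_nil_or_concat w with h | ⟨u, a, h⟩
      · subst h; simp at hw
      · exact ⟨u, a, by simpa using h⟩
    have hu : u.length = k := by simpa using hw
    rw [up, ← List.cons_append, sat_sh I _ (k + 1) (b :: u) a (by simp [hu])]
    exact ih u b hu

/-- The theory of a word. -/
def th (I : Interp L M) (w : List M) : Set (Fl L) := {φ | Sat I φ w}

/-- The type of a word: the theories of its initial segments. -/
def ty (I : Interp L M) : List M → List (Set (Fl L))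
  | [] => [th I [] ]
  | b :: w => th I (b :: w) :: ty I w

theorem ty_length (I : Interp L M) (w : List M) : (ty I w).length = w.length + 1 := by
  induction w with
  | nil => rfl
  | cons b w ih => simp [ty, ih]

theorem len_of_ty {I : Interp L M} {I' : Interp L M'} {w : List M} {w' : List M'}
    (h : ty I w = ty I' w') : w.length = w'.length := by
  have := congrArg List.length h
  rw [ty_length, ty_length] at this
  omega

theorem ty_cons (I : Interp L M) (I' : Interp L M') (b : M) (b' : M') (w : List M)
    (w' : List M') : ty I (b :: w) = ty I' (b' :: w') ↔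
      th I (b :: w) = th I' (b' :: w') ∧ ty I w = ty I' w' := by
  simp only [ty, List.cons.injEq]

theorem th_of_ty {I : Interp L M} {I' : Interp L M'} {w : List M} {w' : List M'}
    (h : ty I w = ty I' w') : th I w = th I' w' := by
  match w, w' with
  | [], [] => simpa [ty] using h
  | b :: w, b' :: w' => exact ((ty_cons I I' b b' w w').1 h).1
  | [], b' :: w' => simpa using len_of_ty h
  | b :: w, [] => simpa using len_of_ty h

theorem sat_of_ty {I : Interp L M} {I' : Interp L M'} {w : List M} {w' : List M'}
    (h : ty I w = ty I' w') (φ : Fl L) : Sat I φ w ↔ Sat I' φ w' := by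
  have := th_of_ty h
  exact Iff.of_eq (congrArg (fun s => φ ∈ s) this)

theorem ty_concat {I : Interp L M} {I' : Interp L M'} {w : List M} {w' : List M'} {a : M} {a' : M'}
    (h : ty I (w ++ [a]) = ty I' (w' ++ [a'])) : ty I w = ty I' w' := by
  induction w generalizing w' with
  | nil =>
    match w', h with
    | [], h =>
      rw [List.nil_append, List.nil_append, ty_cons] at h
      exact h.2
    | b :: w', h => simpa using len_of_ty h
  | cons b w ih =>
    match w', h with
    | [], h => simpa using len_of_ty h
    | b' :: w', h =>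
      have hl := len_of_ty h
      rw [List.cons_append, List.cons_append, ty_cons] at h
      rw [ty_cons]
      refine ⟨?_, ih h.2⟩
      ext φ
      have h1 := sat_sh I φ (w.length + 1) (b :: w) a (by simp)
      have h2 := sat_sh I' φ (w.length + 1) (b' :: w') a' (by simpa using hl.symm)
      rw [List.cons_append] at h1 h2
      have h3 : (sh (w.length + 1) φ) ∈ th I (b :: (w ++ [a])) ↔
        (sh (w.length + 1) φ) ∈ th I' (b' :: (w' ++ [a'])) := by rw [h.1]
      exact h1.symm.trans (h3.trans h2)

theorem ty_dropLast {I : Interp L M} {I' : Interp L M'} {w : List M} {w' : List M'}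
    (h : ty I w = ty I' w') : ty I w.dropLast = ty I' w'.dropLast := by
  rcases List.eq_nil_or_concat w with h1 | ⟨u, a, h1⟩
  · subst h1
    have : w' = [] := by
      have := len_of_ty h
      exact List.length_eq_zero_iff.1 this.symm
    subst this; exact h
  · rcases List.eq_nil_or_concat w' with h2 | ⟨u', a', h2⟩
    · subst h2
      have := len_of_ty h
      rw [List.length_eq_zero_iff.1 this] at h ⊢
      exact h
    · rw [List.concat_eq_append] at h1 h2
      subst h1; subst h2
      rw [List.dropLast_concat, List.dropLast_concat]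
      exact ty_concat h

theorem ty_tail {I : Interp L M} {I' : Interp L M'} {w : List M} {w' : List M'}
    (h : ty I w = ty I' w') : ty I w.tail = ty I' w'.tail := by
  match w, w' with
  | [], [] => exact h
  | b :: w, b' :: w' => exact ((ty_cons I I' b b' w w').1 h).2
  | [], b' :: w' => simpa using len_of_ty h
  | b :: w, [] => simpa using len_of_ty h

/-- Removing the oldest entries. -/
theorem ty_append {I : Interp L M} {I' : Interp L M'} {u : List M} : ∀ {u' : List M'}
    {w : List M} {w' : List M'},
    u.length = u'.length → ty I (w ++ u) = ty I' (w' ++ u') → ty I w = ty I' w' := by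
  induction u with
  | nil =>
    intro u' w w' hl h
    have : u' = [] := List.length_eq_zero_iff.1 hl.symm
    subst this
    simpa using h
  | cons a u ih =>
    intro u' w w' hl h
    match u', hl with
    | a' :: u', hl =>
      have h1 : ty I ((w ++ [a]) ++ u) = ty I' ((w' ++ [a']) ++ u') := by simpa using h
      exact ty_concat (ih (by simpa using hl) h1)

/-- Removing the newest entries. -/
theorem ty_suffix {I : Interp L M} {I' : Interp L M'} {u : List M} : ∀ {u' : List M'}
    {w : List M} {w' : List M'},
    u.length = u'.length → ty I (u ++ w) = ty I' (u' ++ w') → ty I w = ty I' w' := by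
  induction u with
  | nil =>
    intro u' w w' hl h
    have : u' = [] := List.length_eq_zero_iff.1 hl.symm
    subst this
    simpa using h
  | cons a u ih =>
    intro u' w w' hl h
    match u', hl with
    | a' :: u', hl =>
      rw [List.cons_append, List.cons_append, ty_cons] at h
      exact ih (by simpa using hl) h.2

/-- The type of the newest entry. -/
theorem ty_single {I : Interp L M} {I' : Interp L M'} {b : M} {b' : M'} {w : List M}
    {w' : List M'} (h : ty I (b :: w) = ty I' (b' :: w')) : ty I [b] = ty I' [b'] := by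
  have h1 : ty I ([b] ++ w) = ty I' ([b'] ++ w') := h
  have := len_of_ty h
  exact ty_append (by simpa using this) h1

theorem ty_eq_iff {I : Interp L M} {I' : Interp L M'} {b c : M} {b' c' : M'} {w : List M}
    {w' : List M'} (h : ty I (b :: c :: w) = ty I' (b' :: c' :: w')) : b = c ↔ b' = c' := by
  have := sat_of_ty h .eq
  rw [eq_comm, @eq_comm _ b']
  simpa [Sat] using this

/-- Repeating the newest entry. -/
theorem ty_rep {I : Interp L M} {I' : Interp L M'} {b : M} {b' : M'} {w : List M}
    {w' : List M'} (h : ty I (b :: w) = ty I' (b' :: w')) :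
    ty I (b :: b :: w) = ty I' (b' :: b' :: w') := by
  rw [ty_cons]
  refine ⟨?_, h⟩
  ext φ
  have h1 := sat_of_ty h (.ex (Fl.and .eq φ))
  have e1 : Sat I (.ex (Fl.and .eq φ)) (b :: w) ↔ Sat I φ (b :: b :: w) := by
    simp only [Sat, sat_and]
    constructor
    · rintro ⟨c, ⟨a, v, h2⟩, h3⟩
      simp only [List.cons.injEq] at h2
      obtain ⟨rfl, rfl, rfl⟩ := h2
      exact h3
    · intro h2
      exact ⟨b, ⟨b, w, rfl⟩, h2⟩
  have e2 : Sat I' (.ex (Fl.and .eq φ)) (b' :: w') ↔ Sat I' φ (b' :: b' :: w') := by
    simp only [Sat, sat_and]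
    constructor
    · rintro ⟨c, ⟨a, v, h2⟩, h3⟩
      simp only [List.cons.injEq] at h2
      obtain ⟨rfl, rfl, rfl⟩ := h2
      exact h3
    · intro h2
      exact ⟨b', ⟨b', w', rfl⟩, h2⟩
  exact e1.symm.trans (h1.trans e2)

/-- Transport along a bijection. -/
theorem sat_map {I : Interp L M} {I' : Interp L M'} (g : M ≃ M')
    (hg : ∀ n (R : L.Relations n) (v : Fin n → M), I n R v ↔ I' n R (fun k => g (v k)))
    (φ : Fl L) : ∀ w : List M, Sat I φ w ↔ Sat I' φ (w.map g) := by
  induction φ with
  | bot => intro w; exact Iff.rfl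
  | eq =>
    intro w
    match w with
    | [] => simp [Sat]
    | [a] => simp [Sat]
    | a :: b :: w => simp [Sat]
  | @rel n R =>
    intro w
    by_cases h : n ≤ w.length
    · obtain ⟨v, u, rfl⟩ := exists_word (n := n) (w := w) h
      have : ((List.ofFn v).reverse ++ u).map g =
          (List.ofFn (fun k => g (v k))).reverse ++ u.map g := by
        rw [List.map_append, List.map_reverse, List.map_ofFn]; rfl
      rw [this, sat_rel_iff, sat_rel_iff]
      exact hg n R v
    · constructor
      · intro h'; exact absurd (sat_rel_len I R h') h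
      · intro h'
        have := sat_rel_len I' R h'
        rw [List.length_map] at this
        exact absurd this h
  | imp φ ψ h1 h2 =>
    intro w
    simp only [Sat, h1 w, h2 w]
  | ex φ h1 =>
    intro w
    simp only [Sat]
    constructor
    · rintro ⟨b, hb⟩
      exact ⟨g b, (h1 (b :: w)).1 hb⟩
    · rintro ⟨b, hb⟩
      refine ⟨g.symm b, (h1 (g.symm b :: w)).2 ?_⟩
      simpa using hb
  | prev φ h1 =>
    intro w
    simp only [Sat]
    rw [h1, List.map_tail]

theorem ty_map {I : Interp L M} {I' : Interp L M'} (g : M ≃ M')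
    (hg : ∀ n (R : L.Relations n) (v : Fin n → M), I n R v ↔ I' n R (fun k => g (v k)))
    (w : List M) : ty I w = ty I' (w.map g) := by
  induction w with
  | nil =>
    simp only [ty, List.map_nil]
    congr 1
    ext φ
    exact sat_map g hg φ []
  | cons b w ih =>
    rw [List.map_cons, ty_cons]
    refine ⟨?_, ih⟩
    ext φ
    exact sat_map g hg φ (b :: w)

end Pool.Agent.H667.FL
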