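import Pool.Agent.H667.FL.Syn

set_option autoImplicit false

/-!
Ultrapowers and saturation for fluted formulas; countable homogeneous substructures.
-/

namespace Pool.Agent.H667.FL

open FirstOrder Set Filter
open Pool.Agent.H565R2.FO2 (Interp Code toI ofI toI_ofI Iso)

variable {L : FirstOrder.Language.{0, 0}} {M M' : Type}

/-- The ultrapower. -/
abbrev UP (M : Type) : Type := Filter.Germ (hyperfilter ℕ : Filter ℕ) M

/-- A representing sequence. -/
noncomputable def rp (g : UP M) : ℕ → M := Quotient.out g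

theorem rp_coe (g : UP M) : ((rp g : ℕ → M) : UP M) = g := Quotient.out_eq g

theorem coe_rp (f : ℕ → M) : rp (f : UP M) =ᶠ[(hyperfilter ℕ : Filter ℕ)] f :=
  Filter.Germ.coe_eq.1 (rp_coe _)

/-- The interpretation of the ultrapower. -/
def star (I : Interp L M) : Interp L (UP M) := fun n R v =>
  ∀ᶠ i in (hyperfilter ℕ : Filter ℕ), I n R (fun k => rp (v k) i)

theorem hyp_ne : (hyperfilter ℕ : Filter ℕ) ≠ ⊥ := Filter.NeBot.ne inferInstance

theorem los (I : Interp L M) (φ : Fl L) : ∀ w : List (UP M),
    Sat (star I) φ w ↔ ∀ᶠ i in (hyperfilter ℕ : Filter ℕ), Sat I φ (w.map fun g => rp g i) := by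
  induction φ with
  | bot =>
    intro w
    simp [Sat, hyp_ne]
  | eq =>
    intro w
    match w with
    | [] => simp [Sat, hyp_ne]
    | [a] => simp [Sat, hyp_ne]
    | a :: b :: u =>
      have h1 : Sat (star I) .eq (a :: b :: u) ↔ a = b := by
        rw [eq_comm]; simp [Sat]
      have h2 : ∀ i, Sat I .eq ((a :: b :: u).map fun g => rp g i) ↔ rp a i = rp b i := by
        intro i
        rw [eq_comm]; simp [Sat]
      rw [h1]
      simp only [h2]
      constructor
      · rintro rfl
        exact Filter.Eventually.of_forall fun i => rfl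
      · intro h
        rw [← rp_coe a, ← rp_coe b]
        exact Filter.Germ.coe_eq.2 h
  | @rel n R =>
    intro w
    by_cases h : n ≤ w.length
    · obtain ⟨v, u, rfl⟩ := exists_word (n := n) (w := w) h
      rw [sat_rel_iff]
      have : ∀ i, ((List.ofFn v).reverse ++ u).map (fun g => rp g i) =
          (List.ofFn (fun k => rp (v k) i)).reverse ++ u.map (fun g => rp g i) := by
        intro i
        rw [List.map_append, List.map_reverse, List.map_ofFn]; rfl
      simp only [this, sat_rel_iff]
      exact Iff.rfl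
    · constructor
      · intro h'; exact absurd (sat_rel_len _ R h') h
      · intro h'
        obtain ⟨i, hi⟩ := h'.exists
        have := sat_rel_len I R hi
        rw [List.length_map] at this
        exact absurd this h
  | imp φ ψ h1 h2 =>
    intro w
    simp only [Sat, h1 w, h2 w]
    exact Ultrafilter.eventually_imp.symm
  | ex φ h1 =>
    intro w
    simp only [Sat]
    constructor
    · rintro ⟨b, hb⟩
      rw [h1] at hb
      filter_upwards [hb] with i hi
      exact ⟨rp b i, by simpa using hi⟩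
    · intro h
      obtain ⟨i0, b0, -⟩ := h.exists
      classical
      let f : ℕ → M := fun i => if h : ∃ b, Sat I φ (b :: w.map fun g => rp g i) then h.choose
        else b0
      refine ⟨(f : UP M), (h1 _).2 ?_⟩
      filter_upwards [h, coe_rp f] with i hi hf
      rw [List.map_cons, hf]
      have : f i = hi.choose := dif_pos hi
      rw [this]
      exact hi.choose_spec
  | prev φ h1 =>
    intro w
    simp only [Sat, ← List.map_tail]
    exact h1 w.tail

/-- Finite conjunctions. -/
def conj (Γ : ℕ → Fl L) : ℕ → Fl L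
  | 0 => Γ 0
  | m + 1 => Fl.and (conj Γ m) (Γ (m + 1))

theorem sat_conj (I : Interp L M) (Γ : ℕ → Fl L) (m : ℕ) (w : List M) :
    Sat I (conj Γ m) w ↔ ∀ j ≤ m, Sat I (Γ j) w := by
  induction m with
  | zero => simp [conj]
  | succ m ih =>
    rw [conj, sat_and, ih]
    constructor
    · rintro ⟨h1, h2⟩ j hj
      rcases Nat.lt_or_ge j (m + 1) with h | h
      · exact h1 j (by omega)
      · have : j = m + 1 := by omega
        subst this; exact h2
    · intro h
      exact ⟨fun j hj => h j (by omega), h _ le_rfl⟩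

theorem satur (I : Interp L M) (w : List (UP M)) (Γ : ℕ → Fl L)
    (h : ∀ m, Sat (star I) (.ex (conj Γ m)) w) : ∃ d, ∀ j, Sat (star I) (Γ j) (d :: w) := by
  classical
  let P : ℕ → ℕ → Prop := fun i m => ∃ x, ∀ j ≤ m, Sat I (Γ j) (x :: w.map fun g => rp g i)
  have hP : ∀ m, ∀ᶠ i in (hyperfilter ℕ : Filter ℕ), P i m := by
    intro m
    have := (los I _ w).1 (h m)
    filter_upwards [this] with i hi
    obtain ⟨x, hx⟩ := hi
    exact ⟨x, (sat_conj I Γ m _).1 hx⟩
  obtain ⟨b0, -⟩ := h 0
  let N : ℕ → ℕ := fun i => Nat.findGreatest (P i) i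
  let f : ℕ → M := fun i => if h : P i (N i) then h.choose else rp b0 0
  refine ⟨(f : UP M), fun j => (los I _ _).2 ?_⟩
  have hge : ∀ᶠ i in (hyperfilter ℕ : Filter ℕ), j ≤ i := by
    have h1 : ∀ᶠ i in (Filter.atTop : Filter ℕ), j ≤ i := Filter.eventually_ge_atTop j
    rw [← Nat.cofinite_eq_atTop] at h1
    exact hyperfilter_le_cofinite h1
  filter_upwards [hP j, hge, coe_rp f] with i hi hij hf
  rw [List.map_cons, hf]
  have h1 : P i (N i) := Nat.findGreatest_spec hij hi
  have h2 : j ≤ N i := Nat.le_findGreatest hij hi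
  have h3 : f i = h1.choose := dif_pos h1
  rw [h3]
  exact h1.choose_spec j h2

theorem th_eq_of_subset {I : Interp L M} {I' : Interp L M'} {w : List M} {w' : List M'}
    (h : th I' w' ⊆ th I w) : th I w = th I' w' := by
  refine Set.Subset.antisymm ?_ h
  intro φ hφ
  by_contra hn
  have : φ.neg ∈ th I' w' := hn
  exact (h this) hφ

theorem enum_th [∀ n, Countable (L.Relations n)] (I : Interp L M) (w : List M) :
    ∃ e : ℕ → Fl L, ∀ φ, φ ∈ th I w ↔ ∃ n, e n = φ := by
  have h : (th I w).Nonempty := ⟨Fl.neg .bot, fun h => h⟩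
  obtain ⟨e, he⟩ := (Set.to_countable (th I w)).exists_eq_range h
  exact ⟨e, fun φ => by rw [he]; rfl⟩

theorem ext_star [∀ n, Countable (L.Relations n)] (I : Interp L M) (I' : Interp L M')
    {w : List (UP M)} {w' : List M'} (h : ty (star I) w = ty I' w') (b' : M') :
    ∃ d, ty (star I) (d :: w) = ty I' (b' :: w') := by
  obtain ⟨e, he⟩ := enum_th I' (b' :: w')
  obtain ⟨d, hd⟩ := satur I w e (fun m => by
    rw [sat_of_ty h]
    refine ⟨b', (sat_conj I' e m _).2 fun j _ => ?_⟩
    exact (he (e j)).2 ⟨j, rfl⟩)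
  refine ⟨d, ?_⟩
  rw [ty_cons]
  refine ⟨th_eq_of_subset ?_, h⟩
  intro φ hφ
  obtain ⟨n, rfl⟩ := (he φ).1 hφ
  exact hd n

/-- The formula `χ` names `x`. -/
def Nm (I : Interp L M) (χ : Fl L) (x : M) : Prop := ∀ y, Sat I χ [y] ↔ y = x

/-- The element is named by a formula. -/
def Nmd (I : Interp L M) (x : M) : Prop := ∃ χ, Nm I χ x

theorem twin_star [∀ n, Countable (L.Relations n)] (I : Interp L M) {a : UP M}
    (ha : ¬ Nmd (star I) a) : ∃ d, d ≠ a ∧ ty (star I) [d] = ty (star I) [a] := by
  obtain ⟨e, he⟩ := enum_th (star I) [a]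
  have hs : ∀ y j, Sat (star I) (Fl.and (Fl.neg .eq) (up 1 (e j))) [y, a] ↔
      (y ≠ a ∧ Sat (star I) (e j) [y]) := by
    intro y j
    rw [sat_and, sat_neg, sat_up _ _ 1 [a] y rfl]
    have : Sat (star I) .eq [y, a] ↔ y = a := by
      rw [eq_comm]; simp [Sat]
    rw [this]
  obtain ⟨d, hd⟩ := satur I [a] (fun j => Fl.and (Fl.neg .eq) (up 1 (e j))) (fun m => by
    have h1 : ¬ Nm (star I) (conj e m) a := fun h => ha ⟨_, h⟩
    unfold Nm at h1
    push Not at h1
    obtain ⟨y, hy⟩ := h1
    have h2 : Sat (star I) (conj e m) [a] := (sat_conj _ _ _ _).2 fun j _ => (he _).2 ⟨j, rfl⟩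
    rcases hy with ⟨hy1, hy2⟩ | ⟨hy1, hy2⟩
    · refine ⟨y, (sat_conj _ _ _ _).2 fun j hj => (hs y j).2 ⟨hy2, ?_⟩⟩
      exact (sat_conj _ _ _ _).1 hy1 j hj
    · subst hy2; exact absurd h2 hy1)
  refine ⟨d, ((hs d 0).1 (hd 0)).1, ?_⟩
  rw [ty_cons]
  refine ⟨th_eq_of_subset ?_, rfl⟩
  intro φ hφ
  obtain ⟨n, rfl⟩ := (he φ).1 hφ
  exact ((hs d n).1 (hd n)).2

/-- Constant sequences. -/
noncomputable def cst (x : M) : UP M := ((fun _ => x : ℕ → M) : UP M)

theorem sat_cst (I : Interp L M) (φ : Fl L) (w : List M) :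
    Sat (star I) φ (w.map cst) ↔ Sat I φ w := by
  have h : ∀ᶠ i in (hyperfilter ℕ : Filter ℕ), (w.map cst).map (fun g => rp g i) = w := by
    induction w with
    | nil => exact Filter.Eventually.of_forall fun i => rfl
    | cons a w ih =>
      filter_upwards [ih, coe_rp (fun _ => a : ℕ → M)] with i h1 h2
      rw [List.map_cons, List.map_cons, h1]
      congr 1
  rw [los]
  constructor
  · intro h1
    obtain ⟨i, hi1, hi2⟩ := (h1.and h).exists
    rw [hi2] at hi1; exact hi1
  · intro h1
    filter_upwards [h] with i hi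
    rw [hi]; exact h1

theorem ty_cst (I : Interp L M) (w : List M) : ty (star I) (w.map cst) = ty I w := by
  induction w with
  | nil =>
    simp only [ty, List.map_nil]
    congr 1
    ext φ
    exact sat_cst I φ []
  | cons b w ih =>
    rw [List.map_cons, ty_cons]
    refine ⟨?_, ih⟩
    ext φ
    exact sat_cst I φ (b :: w)

theorem cst_inj {x y : M} (h : (cst x : UP M) = cst y) : x = y := by
  have : (fun _ => x : ℕ → M) =ᶠ[(hyperfilter ℕ : Filter ℕ)] (fun _ => y) :=
    Filter.Germ.coe_eq.1 h
  obtain ⟨i, hi⟩ := this.exists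
  exact hi

theorem nmd_cst {I : Interp L M} {x : M} (h : Nmd (star I) (cst x)) : Nmd I x := by
  obtain ⟨χ, hχ⟩ := h
  refine ⟨χ, fun y => ?_⟩
  have h1 := hχ (cst y)
  have h2 := sat_cst I χ [y]
  rw [List.map_cons, List.map_nil] at h2
  rw [← h2, h1]
  exact ⟨cst_inj, fun h => by rw [h]⟩

/-- Countable closure. -/
theorem closure_aux {X P : Type} [Countable P] (G : P → List X → List X → X) (S : Set X)
    (hS : S.Countable) : ∃ B : Set X, S ⊆ B ∧ B.Countable ∧
      ∀ p w w', (∀ x ∈ w, x ∈ B) → (∀ x ∈ w', x ∈ B) → G p w w' ∈ B := by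
  let lst : Set X → Set (List X) := fun s => {w | ∀ x ∈ w, x ∈ s}
  have hlst : ∀ s : Set X, s.Countable → (lst s).Countable := by
    intro s hs
    have : Countable s := hs.to_subtype
    have h1 : lst s = Set.range (fun l : List s => l.map Subtype.val) := by
      ext w
      constructor
      · intro hw
        refine ⟨w.attach.map fun x => ⟨x.1, hw x.1 x.2⟩, ?_⟩
        simp only [List.map_map]
        conv_rhs => rw [← List.attach_map_subtype_val w]
        rfl
      · rintro ⟨l, rfl⟩ x hx
        obtain ⟨y, -, rfl⟩ := List.mem_map.1 hx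
        exact y.2
    rw [h1]
    exact Set.countable_range _
  let lev : ℕ → Set X := fun n => Nat.rec S (fun _ s =>
    s ∪ ⋃ p, Set.image2 (G p) (lst s) (lst s)) n
  have hlev : ∀ n, lev (n + 1) =
    lev n ∪ ⋃ p, Set.image2 (G p) (lst (lev n)) (lst (lev n)) := fun n => rfl
  have hc : ∀ n, (lev n).Countable := by
    intro n
    induction n with
    | zero => exact hS
    | succ n ih =>
      rw [hlev]
      exact ih.union (Set.countable_iUnion fun p => (hlst _ ih).image2 (hlst _ ih) _)
  have hm : Monotone lev := monotone_nat_of_le_succ fun n => by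
    rw [hlev]; exact Set.subset_union_left
  have hfin : ∀ w : List X, (∀ x ∈ w, x ∈ ⋃ n, lev n) → ∃ n, ∀ x ∈ w, x ∈ lev n := by
    intro w
    induction w with
    | nil => intro _; exact ⟨0, by simp⟩
    | cons a w ih =>
      intro h
      obtain ⟨n, hn⟩ := ih fun x hx => h x (List.mem_cons_of_mem _ hx)
      obtain ⟨m, hm'⟩ := Set.mem_iUnion.1 (h a List.mem_cons_self)
      refine ⟨max n m, fun x hx => ?_⟩
      rcases List.mem_cons.1 hx with rfl | hx
      · exact hm (le_max_right _ _) hm'
      · exact hm (le_max_left _ _) (hn x hx)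
  refine ⟨⋃ n, lev n, Set.subset_iUnion lev 0, Set.countable_iUnion hc, ?_⟩
  intro p w w' hw hw'
  obtain ⟨n, hn⟩ := hfin w hw
  obtain ⟨m, hm'⟩ := hfin w' hw'
  refine Set.mem_iUnion.2 ⟨max n m + 1, ?_⟩
  rw [hlev]
  refine Or.inr (Set.mem_iUnion.2 ⟨p, w, ?_, w', ?_, rfl⟩)
  · exact fun x hx => hm (le_max_left _ _) (hn x hx)
  · exact fun x hx => hm (le_max_right _ _) (hm' x hx)

/-- Restriction to a subset. -/
def restr (I : Interp L M) (B : Set M) : Interp L B := fun n R v => I n R fun k => (v k).1

theorem sat_restr (I : Interp L M) (B : Set M)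
    (hB : ∀ φ (w : List M), (∀ x ∈ w, x ∈ B) → Sat I (.ex φ) w → ∃ b ∈ B, Sat I φ (b :: w))
    (φ : Fl L) : ∀ w : List B, Sat (restr I B) φ w ↔ Sat I φ (w.map Subtype.val) := by
  induction φ with
  | bot => intro w; exact Iff.rfl
  | eq =>
    intro w
    match w with
    | [] => simp [Sat]
    | [a] => simp [Sat]
    | a :: b :: w => simp [Sat, Subtype.ext_iff]
  | @rel n R =>
    intro w
    by_cases h : n ≤ w.length
    · obtain ⟨v, u, rfl⟩ := exists_word (n := n) (w := w) h
      have : ((List.ofFn v).reverse ++ u).map Subtype.val =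
          (List.ofFn (fun k => (v k).1)).reverse ++ u.map Subtype.val := by
        rw [List.map_append, List.map_reverse, List.map_ofFn]; rfl
      rw [this, sat_rel_iff, sat_rel_iff]
      exact Iff.rfl
    · constructor
      · intro h'; exact absurd (sat_rel_len _ R h') h
      · intro h'
        have := sat_rel_len _ R h'
        rw [List.length_map] at this
        exact absurd this h
  | imp φ ψ h1 h2 =>
    intro w
    simp only [Sat, h1 w, h2 w]
  | ex φ h1 =>
    intro w
    constructor
    · rintro ⟨b, hb⟩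
      exact ⟨b, (h1 (b :: w)).1 hb⟩
    · intro h
      obtain ⟨b, hb, hb'⟩ := hB φ _ (by
        intro x hx
        obtain ⟨y, -, rfl⟩ := List.mem_map.1 hx
        exact y.2) h
      exact ⟨⟨b, hb⟩, (h1 (⟨b, hb⟩ :: w)).2 hb'⟩
  | prev φ h1 =>
    intro w
    simp only [Sat]
    rw [h1, List.map_tail]

theorem ty_restr (I : Interp L M) (B : Set M)
    (hB : ∀ φ (w : List M), (∀ x ∈ w, x ∈ B) → Sat I (.ex φ) w → ∃ b ∈ B, Sat I φ (b :: w))
    (w : List B) : ty (restr I B) w = ty I (w.map Subtype.val) := by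
  induction w with
  | nil =>
    simp only [ty, List.map_nil]
    congr 1
    ext φ
    exact sat_restr I B hB φ []
  | cons b w ih =>
    rw [List.map_cons, ty_cons]
    refine ⟨?_, ih⟩
    ext φ
    exact sat_restr I B hB φ (b :: w)

/-- The countable homogeneous substructure of the ultrapower. -/
theorem exists_hom [∀ n, Countable (L.Relations n)] (I : Interp L M) (S : Set (UP M))
    (hS : S.Countable) (hne : Nonempty (UP M)) : ∃ B : Set (UP M), S ⊆ B ∧ B.Countable ∧
      (∀ w : List B, ty (restr (star I) B) w = ty (star I) (w.map Subtype.val)) ∧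
      (∀ w w' : List B, ty (restr (star I) B) w = ty (restr (star I) B) w' →
        ∀ b, ∃ b', ty (restr (star I) B) (b :: w) = ty (restr (star I) B) (b' :: w')) ∧
      (∀ b : B, ¬ Nmd (star I) b.1 → ∃ d : B, d ≠ b ∧
        ty (restr (star I) B) [d] = ty (restr (star I) B) [b]) := by
  classical
  let x0 : UP M := Classical.choice hne
  let F1 : Fl L → List (UP M) → UP M := fun φ w =>
    if h : ∃ b, Sat (star I) φ (b :: w) then h.choose else x0
  let F2 : UP M → List (UP M) → List (UP M) → UP M := fun b w w' =>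
    if h : ∃ b', ty (star I) (b :: w) = ty (star I) (b' :: w') then h.choose else x0
  let F3 : UP M → UP M := fun b =>
    if h : ∃ d, d ≠ b ∧ ty (star I) [d] = ty (star I) [b] then h.choose else x0
  let G : Option (Fl L) → List (UP M) → List (UP M) → UP M := fun p w w' =>
    match p with
    | some φ => F1 φ w
    | none => match w with
      | [] => F3 (w'.headD x0)
      | b :: w => F2 b w w'
  obtain ⟨B, hSB, hBc, hB⟩ := closure_aux G S hS
  have hB1 : ∀ φ (w : List (UP M)), (∀ x ∈ w, x ∈ B) → Sat (star I) (.ex φ) w →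
      ∃ b ∈ B, Sat (star I) φ (b :: w) := by
    intro φ w hw h
    have h1 := hB (some φ) w [] hw (by simp)
    refine ⟨_, h1, ?_⟩
    have h2 : ∃ b, Sat (star I) φ (b :: w) := h
    have : G (some φ) w [] = h2.choose := dif_pos h2
    rw [this]
    exact h2.choose_spec
  have htr := ty_restr (star I) B hB1
  refine ⟨B, hSB, hBc, htr, ?_, ?_⟩
  · intro w w' h b
    rw [htr, htr] at h
    have h1 := hB none (b.1 :: w.map Subtype.val) (w'.map Subtype.val) (by
      intro x hx
      rcases List.mem_cons.1 hx with rfl | hx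
      · exact b.2
      · obtain ⟨y, -, rfl⟩ := List.mem_map.1 hx
        exact y.2) (by
      intro x hx
      obtain ⟨y, -, rfl⟩ := List.mem_map.1 hx
      exact y.2)
    refine ⟨⟨_, h1⟩, ?_⟩
    rw [htr, htr, List.map_cons, List.map_cons]
    have h2 : ∃ b', ty (star I) (b.1 :: w.map Subtype.val) =
        ty (star I) (b' :: w'.map Subtype.val) := by
      obtain ⟨d, hd⟩ := ext_star I (star I) h.symm b.1
      exact ⟨d, hd.symm⟩
    have : G none (b.1 :: w.map Subtype.val) (w'.map Subtype.val) = h2.choose := dif_pos h2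
    show ty (star I) (b.1 :: w.map Subtype.val) =
      ty (star I) (G none (b.1 :: w.map Subtype.val) (w'.map Subtype.val) :: w'.map Subtype.val)
    rw [this]
    exact h2.choose_spec
  · intro b hb
    have h1 := hB none [] [b.1] (by simp) (by
      intro x hx
      rw [List.mem_singleton] at hx
      subst hx; exact b.2)
    have h2 := twin_star I hb
    have h3 : G none [] [b.1] = h2.choose := dif_pos h2
    have h4 := h2.choose_spec
    rw [← h3] at h4
    refine ⟨⟨_, h1⟩, ?_, ?_⟩
    · intro h
      exact h4.1 (congrArg Subtype.val h)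
    · rw [htr, htr, List.map_cons, List.map_cons, List.map_nil]
      exact h4.2

end Pool.Agent.H667.FL
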